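import Pool.Agent.Helper75.Ent.Ops

/-!
# The algebra `ℂ 1 + K(ℓ²)` and its endomorphism
-/

open Filter Topology
open scoped ComplexOrder

set_option autoImplicit false

namespace Ent75

noncomputable section

/-- Compactness of an operator, expressed through the projections `P D`. -/
def IsK (T : BH) : Prop :=
  Tendsto (fun D => P D * T) atTop (𝓝 T) ∧ Tendsto (fun D => T * P D) atTop (𝓝 T)

lemma IsK.add {S T : BH} (hS : IsK S) (hT : IsK T) : IsK (S + T) := by
  constructor
  · simpa only [mul_add] using hS.1.add hT.1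
  · simpa only [add_mul] using hS.2.add hT.2

lemma IsK.smul {S : BH} (hS : IsK S) (c : ℂ) : IsK (c • S) := by
  constructor
  · simpa only [mul_smul_comm] using hS.1.const_smul c
  · simpa only [smul_mul_assoc] using hS.2.const_smul c

lemma IsK.mul {S T : BH} (hS : IsK S) (hT : IsK T) : IsK (S * T) := by
  constructor
  · simpa only [mul_assoc] using hS.1.mul_const T
  · simpa only [mul_assoc] using hT.2.const_mul S

lemma IsK.star {S : BH} (hS : IsK S) : IsK (star S) := by
  constructor
  · simpa only [star_mul, star_P] using hS.2.star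
  · simpa only [star_mul, star_P] using hS.1.star

lemma isK_zero : IsK 0 := by
  constructor <;> simp

lemma IsK.sum {ι : Type*} {f : ι → BH} {S : Finset ι} (h : ∀ i ∈ S, IsK (f i)) :
    IsK (∑ i ∈ S, f i) := by
  classical
  induction S using Finset.induction with
  | empty => simpa using isK_zero
  | insert a S ha ih =>
    rw [Finset.sum_insert ha]
    exact (h a (Finset.mem_insert_self a S)).add
      (ih fun i hi => h i (Finset.mem_insert_of_mem hi))

lemma isK_E (x y : ℕ) : IsK (E x y) := by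
  constructor
  · apply tendsto_const_nhds.congr'
    filter_upwards [eventually_gt_atTop x] with D hD
    rw [P_mul_E hD]
  · apply tendsto_const_nhds.congr'
    filter_upwards [eventually_gt_atTop y] with D hD
    rw [E_mul_P hD]

lemma isK_P (D : ℕ) : IsK (P D) := IsK.sum fun _ _ => isK_E _ _

lemma isClosed_isK_aux (L : ℕ → BH →L[ℂ] BH) (hL : ∀ D T, ‖L D T‖ ≤ ‖T‖) :
    IsClosed {T : BH | Tendsto (fun D => L D T) atTop (𝓝 T)} := by
  apply isClosed_of_closure_subset
  intro T hT
  rw [Set.mem_ofPred_eq, Metric.tendsto_atTop]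
  intro ε hε
  obtain ⟨S, hS, hST⟩ := Metric.mem_closure_iff.1 hT (ε / 3) (by positivity)
  obtain ⟨N, hN⟩ := Metric.tendsto_atTop.1 hS (ε / 3) (by positivity)
  refine ⟨N, fun D hD => ?_⟩
  have h1 := hN D hD
  have h2 := hL D (T - S)
  rw [dist_eq_norm] at *
  have e1 : L D T - T = L D (T - S) + (L D S - S) - (T - S) := by
    rw [map_sub]
    abel
  rw [e1]
  calc ‖L D (T - S) + (L D S - S) - (T - S)‖
      ≤ ‖L D (T - S)‖ + ‖L D S - S‖ + ‖T - S‖ :=
        (norm_sub_le _ _).trans (add_le_add_left (norm_add_le _ _) _)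
    _ < ε := by linarith

lemma isClosed_isK : IsClosed {T : BH | IsK T} := by
  have h1 := isClosed_isK_aux (fun D => ContinuousLinearMap.mul ℂ BH (P D)) (fun D T => by
    calc ‖P D * T‖ ≤ ‖P D‖ * ‖T‖ := norm_mul_le _ _
      _ ≤ 1 * ‖T‖ := by gcongr; exact norm_P_le D
      _ = ‖T‖ := one_mul _)
  have h2 := isClosed_isK_aux (fun D => (ContinuousLinearMap.mul ℂ BH).flip (P D)) (fun D T => by
    calc ‖T * P D‖ ≤ ‖T‖ * ‖P D‖ := norm_mul_le _ _
      _ ≤ ‖T‖ * 1 := by gcongr; exact norm_P_le D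
      _ = ‖T‖ := mul_one _)
  exact h1.inter h2

lemma IsK.tendsto {T : BH} (h : IsK T) : Tendsto (fun D => P D * T * P D) atTop (𝓝 T) := by
  rw [Metric.tendsto_atTop]
  intro ε hε
  obtain ⟨N1, h1⟩ := Metric.tendsto_atTop.1 h.1 (ε / 2) (by positivity)
  obtain ⟨N2, h2⟩ := Metric.tendsto_atTop.1 h.2 (ε / 2) (by positivity)
  refine ⟨max N1 N2, fun D hD => ?_⟩
  have a1 := h1 D ((le_max_left _ _).trans hD)
  have a2 := h2 D ((le_max_right _ _).trans hD)
  rw [dist_eq_norm] at *
  have e1 : P D * T * P D - T = (P D * T - T) * P D + (T * P D - T) := by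
    rw [sub_mul]
    abel
  rw [e1]
  have h3 : ‖(P D * T - T) * P D‖ ≤ ‖P D * T - T‖ := by
    calc _ ≤ ‖P D * T - T‖ * ‖P D‖ := norm_mul_le _ _
      _ ≤ ‖P D * T - T‖ * 1 := by gcongr; exact norm_P_le D
      _ = _ := mul_one _
  exact (norm_add_le _ _).trans_lt (by linarith)

variable {m : ℕ}

lemma th_P_eq (D : ℕ) : th m (P D) = P (m * D + 1) - E 0 0 := by
  rw [← th_P]
  abel

lemma P_mul_th_P {D D' : ℕ} (h : m * D + 1 ≤ D') : P D' * th m (P D) = th m (P D) := by
  rw [th_P_eq, mul_sub, P_mul_P h, P_mul_E (by omega)]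

lemma IsK.th_aux {T : BH} (hT : Tendsto (fun D => P D * T) atTop (𝓝 T)) :
    Tendsto (fun D => P D * th m T) atTop (𝓝 (th m T)) := by
  rw [Metric.tendsto_atTop]
  intro ε hε
  obtain ⟨N, h1⟩ := Metric.tendsto_atTop.1 hT (ε / 2) (by positivity)
  refine ⟨m * N + 1, fun D hD => ?_⟩
  have a1 := h1 N le_rfl
  rw [dist_eq_norm] at *
  have e1 : P D * th m T - th m T = th m (P N * T - T) - P D * th m (P N * T - T) := by
    rw [map_sub, map_mul, mul_sub, ← mul_assoc, P_mul_th_P hD]
    abel
  rw [e1]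
  have h2 := norm_th_le (m := m) (P N * T - T)
  have h3 : ‖P D * th m (P N * T - T)‖ ≤ ‖th m (P N * T - T)‖ := by
    calc _ ≤ ‖P D‖ * ‖th m (P N * T - T)‖ := norm_mul_le _ _
      _ ≤ 1 * ‖th m (P N * T - T)‖ := by gcongr; exact norm_P_le D
      _ = _ := one_mul _
  exact (norm_sub_le _ _).trans_lt (by linarith)

lemma IsK.th {T : BH} (hT : IsK T) : IsK (th m T) := by
  refine ⟨IsK.th_aux hT.1, ?_⟩
  have h := (IsK.th_aux (m := m) hT.star.1).star
  simpa only [star_mul, star_P, ← map_star, star_star] using h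

/-- The pairs `(T, lam)` with `T - lam` compact; a copy of the unitization of the compact
operators. -/
def AA : StarSubalgebra ℂ (BH × ℂ) where
  carrier := {x | IsK (x.1 - x.2 • 1)}
  mul_mem' := by
    intro x y hx hy
    have h1 := ((IsK.mul hx hy).add (IsK.smul hy x.2)).add (IsK.smul hx y.2)
    have e1 : (x * y).1 - (x * y).2 • (1 : BH) = (x.1 - x.2 • 1) * (y.1 - y.2 • 1)
        + x.2 • (y.1 - y.2 • 1) + y.2 • (x.1 - x.2 • 1) := by
      simp only [Prod.fst_mul, Prod.snd_mul, sub_mul, mul_sub, smul_mul_assoc, mul_smul_comm,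
        mul_one, one_mul, smul_sub, smul_smul, mul_comm y.2 x.2]
      abel
    rw [Set.mem_ofPred_eq, e1]
    exact h1
  one_mem' := by
    rw [Set.mem_ofPred_eq]
    simpa using isK_zero
  add_mem' := by
    intro x y hx hy
    have h1 := IsK.add hx hy
    have e1 : (x + y).1 - (x + y).2 • (1 : BH) = (x.1 - x.2 • 1) + (y.1 - y.2 • 1) := by
      simp only [Prod.fst_add, Prod.snd_add, add_smul]
      abel
    rw [Set.mem_ofPred_eq, e1]
    exact h1
  zero_mem' := by
    rw [Set.mem_ofPred_eq]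
    simpa using isK_zero
  algebraMap_mem' := by
    intro r
    rw [Set.mem_ofPred_eq]
    have e1 : (algebraMap ℂ (BH × ℂ) r).1 - (algebraMap ℂ (BH × ℂ) r).2 • (1 : BH) = 0 := by
      simp [Algebra.algebraMap_eq_smul_one]
    rw [e1]
    exact isK_zero
  star_mem' := by
    intro x hx
    have h1 := IsK.star hx
    rw [Set.mem_ofPred_eq]
    have e1 : (star x).1 - (star x).2 • (1 : BH) = star (x.1 - x.2 • 1) := by
      simp [star_sub, star_smul]
    rw [e1]
    exact h1

lemma mem_AA {x : BH × ℂ} : x ∈ AA ↔ IsK (x.1 - x.2 • 1) := Iff.rfl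

instance : IsClosed (AA : Set (BH × ℂ)) := by
  have h : (AA : Set (BH × ℂ)) = (fun x : BH × ℂ => x.1 - x.2 • (1 : BH)) ⁻¹' {T | IsK T} := rfl
  rw [h]
  exact isClosed_isK.preimage (by fun_prop)

/-- The C*-algebra `ℂ 1 + K(ℓ²)`. -/
abbrev AAlg : Type := AA

example : CStarAlgebra AAlg := inferInstance

variable (m) in
/-- The endomorphism on pairs. -/
def beta : (BH × ℂ) →⋆ₐ[ℂ] (BH × ℂ) where
  toFun x := (th m (x.1 - x.2 • 1) + x.2 • 1, x.2)
  map_one' := by
    ext1
    · simp
    · simp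
  map_mul' x y := by
    ext1
    · simp only [Prod.fst_mul, Prod.snd_mul]
      have e1 : x.1 * y.1 - (x.2 * y.2) • (1 : BH) = (x.1 - x.2 • 1) * (y.1 - y.2 • 1)
          + x.2 • (y.1 - y.2 • 1) + y.2 • (x.1 - x.2 • 1) := by
        simp only [sub_mul, mul_sub, smul_mul_assoc, mul_smul_comm,
          mul_one, one_mul, smul_sub, smul_smul, mul_comm y.2 x.2]
        abel
      rw [e1, map_add, map_add, map_mul, map_smul, map_smul]
      simp only [add_mul, mul_add, smul_mul_assoc, mul_smul_comm, mul_one, one_mul, smul_add,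
        smul_smul, mul_comm y.2 x.2]
      abel
    · simp
  map_zero' := by
    ext1
    · simp
    · simp
  map_add' x y := by
    ext1
    · simp only [Prod.fst_add, Prod.snd_add]
      have e1 : x.1 + y.1 - (x.2 + y.2) • (1 : BH) = (x.1 - x.2 • 1) + (y.1 - y.2 • 1) := by
        rw [add_smul]
        abel
      rw [e1, map_add, add_smul]
      abel
    · simp
  commutes' r := by
    ext1
    · simp [Algebra.algebraMap_eq_smul_one]
    · simp
  map_star' x := by
    ext1
    · simp only [Prod.fst_star, Prod.snd_star]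
      have e1 : star x.1 - star x.2 • (1 : BH) = star (x.1 - x.2 • 1) := by
        simp [star_sub, star_smul]
      rw [e1, map_star]
      simp [star_add, star_smul]
    · simp

variable (m) in
/-- The endomorphism of `ℂ 1 + K(ℓ²)`. -/
def al : AAlg →⋆ₐ[ℂ] AAlg :=
  ((beta m).comp AA.subtype).codRestrict AA (by
    intro x
    rw [mem_AA]
    have h := (mem_AA.1 x.2).th (m := m)
    have e1 : ((beta m).comp AA.subtype x).1 - ((beta m).comp AA.subtype x).2 • (1 : BH)
        = th m (x.1.1 - x.1.2 • 1) := by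
      change th m (x.1.1 - x.1.2 • 1) + x.1.2 • 1 - x.1.2 • 1 = _
      abel
    rw [e1]
    exact h)

end

end Ent75
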