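import Pool.Agent.Helper75.Ent.Upper1

/-!
# Bridge between the definitions and their unbundled forms
-/

open Filter Topology
open scoped ComplexOrder

set_option autoImplicit false

namespace Ent75

noncomputable section

variable {A : Type*} [NonUnitalCStarAlgebra A]

lemma isCPC_to (F : FinDim) (ψ : A →ₗ[ℂ] F.PAlg) (h1 : IsCP ψ) (h2 : IsContractive ψ) :
    IsCPC (B := F.Alg) (fun a => (ψ a : F.PAlg)) :=
  ⟨⟨fun a b => map_add ψ a b, fun c a => map_smul ψ c a⟩, h1, h2⟩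

lemma isCPC_from (F : FinDim) (φ : F.PAlg →ₗ[ℂ] A) (h1 : IsCP φ) (h2 : IsContractive φ) :
    IsCPC (A := F.Alg) (fun a => φ a) :=
  ⟨⟨fun a b => map_add φ a b, fun c a => map_smul φ c a⟩, h1, h2⟩

lemma cpApprox_of {G : Set A} {ε : ℝ} (F : FinDim) (ψ : A →ₗ[ℂ] F.PAlg) (φ : F.PAlg →ₗ[ℂ] A)
    (h1 : IsCP ψ) (h2 : IsContractive ψ) (h3 : IsCP φ) (h4 : IsContractive φ)
    (h5 : ∀ a ∈ G, ‖φ (ψ a) - a‖ ≤ ε) : CPApprox G ε F.rank :=
  ⟨F, fun a => (ψ a : F.PAlg), fun a => φ a, isCPC_to F ψ h1 h2, isCPC_from F φ h3 h4, h5, rfl⟩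

lemma decomposableC_zero_of {G : Set A} {ε : ℝ} (F : FinDim) (ψ : A →ₗ[ℂ] F.PAlg)
    (φ : F.PAlg →ₗ[ℂ] A) (h1 : IsCP ψ) (h2 : IsContractive ψ) (h3 : IsCP φ)
    (h4 : IsContractive φ) (h6 : IsOrderZero φ) (h5 : ∀ a ∈ G, ‖φ (ψ a) - a‖ ≤ ε) :
    DecomposableC 0 G ε F.rank := by
  have hn : ∀ x : Total (fun _ : Fin (0 + 1) => F), ‖(x 0 : F.Alg)‖ ≤ ‖x‖ := by
    intro x
    exact norm_le_pi_norm (show ∀ _ : Fin (0 + 1), F.Alg from x) 0
  refine ⟨fun _ => F, fun a _ => (ψ a : F.PAlg), fun x => φ (x 0), ⟨⟨⟨?_, ?_⟩, ?_, ?_⟩,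
    ⟨?_, ?_⟩, ?_, ?_⟩, ?_, ?_⟩
  · intro a b
    funext i
    exact map_add ψ a b
  · intro c a
    funext i
    exact map_smul ψ c a
  · exact isCP_pi (ι := Fin (0 + 1)) (B := fun _ => F.Alg) fun i => (isCPC_to F ψ h1 h2).2.1
  · intro a
    refine (pi_norm_le_iff_of_nonneg (norm_nonneg a)).2 fun i => ?_
    exact h2 a
  · intro a b
    exact map_add φ (a 0) (b 0)
  · intro c a
    exact map_smul φ c (a 0)
  · intro i
    obtain rfl : i = 0 := Fin.fin_one_eq_zero i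
    have h7 : (fun x : F.Alg => φ (emb (fun _ : Fin (0 + 1) => F) 0 x 0)) = fun x => φ x := by
      funext x
      congr 1
    rw [h7]
    exact ⟨isCPC_from F φ h3 h4, h6⟩
  · exact h5
  · intro x
    exact (h4 (x 0)).trans (hn x)
  · rw [Fin.sum_univ_one]

lemma Decomposable.out {G : Set A} {ε : ℝ} {r : ℕ} (h : Decomposable 0 G ε r) :
    ∃ (F : FinDim) (ψ : A → F.PAlg) (φ : F.PAlg →ₗ[ℂ] A), IsCP ψ ∧ IsCP φ ∧ IsOrderZero φ ∧
      (∀ a ∈ G, ‖φ (ψ a) - a‖ ≤ ε) ∧ F.rank = r := by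
  obtain ⟨F, ψ, φ, ⟨h1, h2, h3, h4⟩, h5⟩ := h
  have hsingle : ∀ y : Total F, emb F 0 (y 0) = y := by
    intro y
    funext i
    obtain rfl : i = 0 := Fin.fin_one_eq_zero i
    exact Pi.single_eq_same (M := fun i : Fin (0 + 1) => (F i).Alg) 0 (y 0)
  let Φ : (F 0).PAlg →ₗ[ℂ] A :=
    { toFun := fun x => φ (emb F 0 x)
      map_add' := fun a b => (h3 0).1.1.map_add a b
      map_smul' := fun c a => (h3 0).1.1.map_smul c a }
  refine ⟨F 0, fun a => (ψ a) 0, Φ, ?_, (h3 0).1.2.1, (h3 0).2, ?_, ?_⟩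
  · have h6 : IsCP (fun x : Total F => x 0) := by
      let ρ : Total F →+ (F 0).Alg :=
        { toFun := fun b => b 0
          map_zero' := rfl
          map_add' := fun _ _ => rfl }
      exact isCP_hom ρ (fun _ _ => rfl) (fun _ => rfl)
    exact h6.comp h1.2.1
  · intro a ha
    change ‖φ (emb F 0 (ψ a 0)) - a‖ ≤ ε
    rw [hsingle]
    exact h4 a ha
  · rw [← h5, Fin.sum_univ_one]

lemma DecomposableC.decomposable {d : ℕ} {G : Set A}
    {ε : ℝ} {r : ℕ} (h : DecomposableC d G ε r) : Decomposable d G ε r := by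
  obtain ⟨F, ψ, φ, h1, _, h3⟩ := h
  exact ⟨F, ψ, φ, h1, h3⟩

end

end Ent75
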