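import Mathlib

/-!
# Nuclear dimension, decomposition rank and the three entropies

Definitions only.
-/

open Filter
open scoped ENNReal ComplexOrder

set_option autoImplicit false

namespace Ent75

noncomputable section

/-- Positivity: `x` is a finite sum of elements of the form `s* s`. In a C*-algebra (and in the
algebras of matrices over a C*-algebra) these are exactly the positive elements. -/
def IsPos {R : Type*} [NonUnitalSemiring R] [StarRing R] (x : R) : Prop :=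
  x ∈ AddSubmonoid.closure (Set.range fun s : R => star s * s)

/-- `φ` is completely positive: applying `φ` to the entries of a positive matrix over `A` gives a
positive matrix over `B`. -/
def IsCP {A B : Type*} [NonUnitalSemiring A] [StarRing A] [NonUnitalSemiring B] [StarRing B]
    (φ : A → B) : Prop :=
  ∀ (k : ℕ) (X : Matrix (Fin k) (Fin k) A), IsPos X → IsPos (X.map φ)

/-- `φ` has order zero: `φ a` and `φ b` are orthogonal if `a` and `b` are positive and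
orthogonal. -/
def IsOrderZero {A B : Type*} [NonUnitalSemiring A] [StarRing A] [NonUnitalSemiring B]
    (φ : A → B) : Prop :=
  ∀ a b, IsPos a → IsPos b → a * b = 0 → φ a * φ b = 0

/-- `φ` is linear, completely positive and contractive. -/
def IsCPC {A B : Type*} [NonUnitalCStarAlgebra A] [NonUnitalCStarAlgebra B] (φ : A → B) : Prop :=
  IsLinearMap ℂ φ ∧ IsCP φ ∧ ∀ a, ‖φ a‖ ≤ ‖a‖

/-- Data of a finite-dimensional C*-algebra `M_{n_0}(ℂ) ⊕ ⋯ ⊕ M_{n_{m-1}}(ℂ)`. -/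
structure FinDim where
  /-- the number of summands -/
  m : ℕ
  /-- the sizes of the matrices -/
  n : Fin m → ℕ

/-- The C*-algebra `M_{n_0}(ℂ) ⊕ ⋯ ⊕ M_{n_{m-1}}(ℂ)`. -/
def FinDim.Alg (F : FinDim) : Type :=
  ∀ j : Fin F.m, CStarMatrix (Fin (F.n j)) (Fin (F.n j)) ℂ

instance (F : FinDim) : NonUnitalCStarAlgebra F.Alg :=
  instNonUnitalCStarAlgebraForall
    (A := fun j : Fin F.m => CStarMatrix (Fin (F.n j)) (Fin (F.n j)) ℂ)

/-- The rank `n_0 + ⋯ + n_{m-1}`, the dimension of a maximal abelian subalgebra. -/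
def FinDim.rank (F : FinDim) : ℕ := ∑ j, F.n j

/-- The direct sum `F⁽⁰⁾ ⊕ ⋯ ⊕ F⁽ᵈ⁾`. -/
def Total {d : ℕ} (F : Fin (d + 1) → FinDim) : Type := ∀ i, (F i).Alg

instance {d : ℕ} (F : Fin (d + 1) → FinDim) : NonUnitalCStarAlgebra (Total F) :=
  instNonUnitalCStarAlgebraForall (A := fun i => (F i).Alg)

/-- The inclusion of the summand `F⁽ⁱ⁾`. -/
def emb {d : ℕ} (F : Fin (d + 1) → FinDim) (i : Fin (d + 1)) (x : (F i).Alg) : Total F :=
  Pi.single i x

section Systems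

variable {A : Type*} [NonUnitalCStarAlgebra A]

/-- `(F, ψ, φ)` with `F` of rank `r`, `ψ : A → F` and `φ : F → A` completely positive contractive
and `‖φ(ψ(a)) - a‖ ≤ ε` for all `a ∈ G`. -/
def CPApprox (G : Set A) (ε : ℝ) (r : ℕ) : Prop :=
  ∃ (F : FinDim) (ψ : A → F.Alg) (φ : F.Alg → A),
    IsCPC ψ ∧ IsCPC φ ∧ (∀ a ∈ G, ‖φ (ψ a) - a‖ ≤ ε) ∧ F.rank = r

/-- `(F, ψ, φ)`, `F = F⁽⁰⁾ ⊕ ⋯ ⊕ F⁽ᵈ⁾`, is a `(d, G, ε)`-decomposable system. -/
def IsDecomposable {d : ℕ} (G : Set A) (ε : ℝ) (F : Fin (d + 1) → FinDim) (ψ : A → Total F)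
    (φ : Total F → A) : Prop :=
  IsCPC ψ ∧ IsLinearMap ℂ φ ∧
  (∀ i, IsCPC (fun x => φ (emb F i x)) ∧ IsOrderZero (fun x => φ (emb F i x))) ∧
  ∀ a ∈ G, ‖φ (ψ a) - a‖ ≤ ε

/-- There is a `(d, G, ε)`-decomposable system of rank `r`. -/
def Decomposable (d : ℕ) (G : Set A) (ε : ℝ) (r : ℕ) : Prop :=
  ∃ (F : Fin (d + 1) → FinDim) (ψ : A → Total F) (φ : Total F → A),
    IsDecomposable G ε F ψ φ ∧ ∑ i, (F i).rank = r

/-- There is a contractive `(d, G, ε)`-decomposable system of rank `r`. -/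
def DecomposableC (d : ℕ) (G : Set A) (ε : ℝ) (r : ℕ) : Prop :=
  ∃ (F : Fin (d + 1) → FinDim) (ψ : A → Total F) (φ : Total F → A),
    IsDecomposable G ε F ψ φ ∧ (∀ x, ‖φ x‖ ≤ ‖x‖) ∧ ∑ i, (F i).rank = r

variable (A) in
/-- The nuclear dimension of `A`. -/
def dimNuc : ℕ∞ :=
  ⨅ (d : ℕ) (_ : ∀ (G : Set A) (ε : ℝ), G.Finite → 0 < ε → ∃ r, Decomposable d G ε r), (d : ℕ∞)

variable (A) in
/-- The decomposition rank of `A`. -/
def decRank : ℕ∞ :=
  ⨅ (d : ℕ) (_ : ∀ (G : Set A) (ε : ℝ), G.Finite → 0 < ε → ∃ r, DecomposableC d G ε r), (d : ℕ∞)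

/-- The infimum of the ranks `r` with property `S r` (`∞` if there is none). -/
def infRank (S : ℕ → Prop) : ℝ≥0∞ := ⨅ (r : ℕ) (_ : S r), (r : ℝ≥0∞)

/-- The set `G ∪ α(G) ∪ ⋯ ∪ α^{n-1}(G)`. -/
def orbitSet (α : A → A) (G : Set A) (n : ℕ) : Set A :=
  {x | ∃ k < n, ∃ a ∈ G, x = α^[k] a}

/-- The entropy `h_r(α)` of `α` defined by the rank function `(G, ε) ↦ inf {r | S G ε r}`. -/
def entropy (S : Set A → ℝ → ℕ → Prop) (α : A → A) : EReal :=
  ⨆ (G : Set A) (_ : G.Finite) (ε : ℝ) (_ : 0 < ε),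
    limsup (fun n : ℕ => ENNReal.log (infRank (S (orbitSet α G n) ε)) / (n : EReal)) atTop

/-- The Brown–Voiculescu entropy `ht(α)`. -/
def ht (α : A → A) : EReal := entropy CPApprox α

/-- The entropy `ht_nuc(α)`. -/
def htNuc (α : A → A) : EReal :=
  if dimNuc A = ⊤ then ⊤ else entropy (Decomposable (dimNuc A).toNat) α

/-- The entropy `ht_dr(α)`. -/
def htDr (α : A → A) : EReal :=
  if decRank A = ⊤ then ⊤ else entropy (DecomposableC (decRank A).toNat) α

end Systems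

end

end Ent75
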