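import Pool.Agent.Helper75.Ent.Alg

/-!
# The lower bound

Order zero maps `F → B(ℓ²)` whose image is close to the elements `α^k(v_i)` live on algebras of
exponentially large dimension.
-/

open Filter Topology
open scoped ComplexOrder InnerProductSpace

set_option autoImplicit false

namespace Ent75

noncomputable section

/-! ### Positivity -/

lemma isPos_star_mul_self {R : Type*} [NonUnitalSemiring R] [StarRing R] (x : R) :
    IsPos (star x * x) := AddSubmonoid.subset_closure ⟨x, rfl⟩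

lemma IsPos.add {R : Type*} [NonUnitalSemiring R] [StarRing R] {x y : R} (hx : IsPos x)
    (hy : IsPos y) : IsPos (x + y) := AddSubmonoid.add_mem _ hx hy

lemma isPos_zero {R : Type*} [NonUnitalSemiring R] [StarRing R] : IsPos (0 : R) :=
  AddSubmonoid.zero_mem _

lemma IsPos.sum {R : Type*} [NonUnitalSemiring R] [StarRing R] {ι : Type*} {S : Finset ι}
    {f : ι → R} (h : ∀ i ∈ S, IsPos (f i)) : IsPos (∑ i ∈ S, f i) :=
  AddSubmonoid.sum_mem _ h

lemma IsPos.isSelfAdjoint {R : Type*} [NonUnitalSemiring R] [StarRing R] {x : R} (hx : IsPos x) :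
    star x = x := by
  refine AddSubmonoid.closure_induction ?_ ?_ ?_ hx
  · rintro _ ⟨y, rfl⟩
    rw [star_mul, star_star]
  · exact star_zero _
  · intro a b _ _ ha hb
    rw [star_add, ha, hb]

/-- It suffices to check complete positivity on the matrices `X* X`. -/
lemma isCP_of {A B : Type*} [NonUnitalSemiring A] [StarRing A] [NonUnitalSemiring B] [StarRing B]
    (φ : A →+ B) (h : ∀ (k : ℕ) (X : Matrix (Fin k) (Fin k) A), IsPos ((star X * X).map φ)) :
    IsCP ⇑φ := by
  intro k X hX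
  refine AddSubmonoid.closure_induction ?_ ?_ ?_ hX
  · rintro _ ⟨y, rfl⟩
    exact h k y
  · rw [Matrix.map_zero _ (map_zero φ)]
    exact isPos_zero
  · intro a b _ _ ha hb
    rw [Matrix.map_add _ (map_add φ)]
    exact ha.add hb

/-- Images of positive matrices under multiplicative star maps are positive. -/
lemma IsPos.map_hom {A B : Type*} [NonUnitalSemiring A] [StarRing A] [NonUnitalSemiring B]
    [StarRing B] (ρ : A →+ B) (hmul : ∀ a b, ρ (a * b) = ρ a * ρ b)
    (hstar : ∀ a, ρ (star a) = star (ρ a)) {k : ℕ} {X : Matrix (Fin k) (Fin k) A}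
    (hX : IsPos X) : IsPos (X.map ρ) := by
  refine AddSubmonoid.closure_induction ?_ ?_ ?_ hX
  · rintro _ ⟨y, rfl⟩
    have e1 : (star y * y).map ρ = star (y.map ρ) * (y.map ρ) := by
      ext i j
      simp only [Matrix.map_apply, Matrix.mul_apply, Matrix.star_apply, map_sum, hmul, hstar]
    rw [e1]
    exact isPos_star_mul_self _
  · rw [Matrix.map_zero _ (map_zero ρ)]
    exact isPos_zero
  · intro a b _ _ ha hb
    rw [Matrix.map_add _ (map_add ρ)]
    exact ha.add hb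

lemma inner_star_mul_self (a : BH) (ξ : H) : ⟪ξ, (star a * a) ξ⟫_ℂ = ((‖a ξ‖ ^ 2 : ℝ) : ℂ) := by
  rw [mul_apply_eq_comp, ContinuousLinearMap.star_eq_adjoint,
    ContinuousLinearMap.adjoint_inner_right, inner_self_eq_norm_sq_to_K]
  push_cast
  rfl

/-- The vanishing part of the Cauchy–Schwarz inequality for positive `2 × 2` operator matrices. -/
lemma IsPos.vanish {M : Matrix (Fin 2) (Fin 2) BH} (hM : IsPos M) (ξ : H) :
    (∃ r : ℝ, 0 ≤ r ∧ ⟪ξ, M 0 0 ξ⟫_ℂ = r) ∧
      (⟪ξ, M 0 0 ξ⟫_ℂ = 0 → ∀ η, ⟪ξ, M 0 1 η⟫_ℂ = 0) := by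
  refine AddSubmonoid.closure_induction ?_ ?_ ?_ hM
  · rintro _ ⟨Y, rfl⟩
    change (∃ r : ℝ, 0 ≤ r ∧ ⟪ξ, (star Y * Y) 0 0 ξ⟫_ℂ = r) ∧
      (⟪ξ, (star Y * Y) 0 0 ξ⟫_ℂ = 0 → ∀ η, ⟪ξ, (star Y * Y) 0 1 η⟫_ℂ = 0)
    have e0 : (star Y * Y) 0 0 = star (Y 0 0) * Y 0 0 + star (Y 1 0) * Y 1 0 := by
      simp [Matrix.mul_apply, Fin.sum_univ_two]
    have e1 : (star Y * Y) 0 1 = star (Y 0 0) * Y 0 1 + star (Y 1 0) * Y 1 1 := by
      simp [Matrix.mul_apply, Fin.sum_univ_two]
    have e2 : ⟪ξ, (star Y * Y) 0 0 ξ⟫_ℂ = ((‖Y 0 0 ξ‖ ^ 2 + ‖Y 1 0 ξ‖ ^ 2 : ℝ) : ℂ) := by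
      rw [e0, add_apply, inner_add_right, inner_star_mul_self, inner_star_mul_self]
      push_cast
      rfl
    refine ⟨⟨_, by positivity, e2⟩, ?_⟩
    intro h0 η
    rw [h0] at e2
    have h1 : ‖Y 0 0 ξ‖ ^ 2 + ‖Y 1 0 ξ‖ ^ 2 = 0 := by exact_mod_cast e2.symm
    have h2 : Y 0 0 ξ = 0 := by
      have : ‖Y 0 0 ξ‖ ^ 2 = 0 := by nlinarith [sq_nonneg ‖Y 0 0 ξ‖, sq_nonneg ‖Y 1 0 ξ‖]
      simpa using this
    have h3 : Y 1 0 ξ = 0 := by
      have : ‖Y 1 0 ξ‖ ^ 2 = 0 := by nlinarith [sq_nonneg ‖Y 0 0 ξ‖, sq_nonneg ‖Y 1 0 ξ‖]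
      simpa using this
    rw [e1, add_apply, inner_add_right, mul_apply_eq_comp, mul_apply_eq_comp,
      ContinuousLinearMap.star_eq_adjoint, ContinuousLinearMap.adjoint_inner_right,
      ContinuousLinearMap.star_eq_adjoint, ContinuousLinearMap.adjoint_inner_right, h2, h3]
    simp
  · refine ⟨⟨0, le_rfl, ?_⟩, ?_⟩
    · simp
    · intro _ η
      simp
  · rintro M N _ _ ⟨⟨r, hr, hM0⟩, hM1⟩ ⟨⟨t, ht, hN0⟩, hN1⟩
    have e0 : ⟪ξ, (M + N) 0 0 ξ⟫_ℂ = ((r + t : ℝ) : ℂ) := by
      rw [Matrix.add_apply, add_apply, inner_add_right, hM0, hN0]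
      push_cast
      rfl
    refine ⟨⟨r + t, by positivity, e0⟩, ?_⟩
    intro h η
    rw [e0] at h
    have h' : r + t = 0 := by exact_mod_cast h
    have hr0 : r = 0 := by linarith
    have ht0 : t = 0 := by linarith
    rw [Matrix.add_apply, add_apply, inner_add_right, hM1 (by rw [hM0, hr0]; simp) η,
      hN1 (by rw [hN0, ht0]; simp) η, add_zero]

/-! ### Order zero maps -/

section orderZero

variable {F : Type*} [Ring F] [StarRing F] [Module ℂ F] (φ : F →ₗ[ℂ] BH)

lemma cp_matrix (hcp : IsCP ⇑φ) (x z : F) : IsPos (Matrix.of ![![φ (star x * x), φ (star x * z)],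
    ![φ (star z * x), φ (star z * z)]]) := by
  have h := hcp 2 (star (Matrix.of ![![x, z], ![0, 0]]) * (Matrix.of ![![x, z], ![0, 0]]))
    (isPos_star_mul_self _)
  have e1 : (star (Matrix.of ![![x, z], ![0, 0]]) * (Matrix.of ![![x, z], ![0, 0]])).map φ =
      Matrix.of ![![φ (star x * x), φ (star x * z)], ![φ (star z * x), φ (star z * z)]] := by
    ext i j : 2
    fin_cases i <;> fin_cases j <;>
      simp [Matrix.mul_apply, Fin.sum_univ_two]
  rwa [e1] at h

lemma cp_selfAdjoint (hcp : IsCP ⇑φ) (x : F) : star (φ (star x * x)) = φ (star x * x) := by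
  have h := (cp_matrix φ hcp x x).isSelfAdjoint
  have h1 := congrFun (congrFun h 0) 0
  simpa using h1

lemma cp_vanish (hcp : IsCP ⇑φ) (x z : F) (ξ : H) (h : φ (star x * x) ξ = 0) (η : H) :
    ⟪ξ, φ (star x * z) η⟫_ℂ = 0 := by
  have h1 := ((cp_matrix φ hcp x z).vanish ξ).2
  simp only [Matrix.of_apply, Matrix.cons_val', Matrix.cons_val_zero, Matrix.cons_val_one,
    Matrix.cons_val_fin_one] at h1
  exact h1 (by rw [h, inner_zero_right]) η

lemma oz_proj_aux (hcp : IsCP ⇑φ) (hoz : IsOrderZero ⇑φ) (p : F) (hp : star p = p)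
    (hpp : p * p = p) (z : F) : φ p * φ ((1 - p) * z) = 0 := by
  have h1 : star (1 - p) = 1 - p := by rw [star_sub, star_one, hp]
  have h2 : (1 - p) * (1 - p) = 1 - p := by
    rw [mul_sub, sub_mul, sub_mul, hpp]
    simp
  have hpos : IsPos p := by
    have := isPos_star_mul_self p
    rwa [hp, hpp] at this
  have hpos' : IsPos (1 - p) := by
    have := isPos_star_mul_self (1 - p)
    rwa [h1, h2] at this
  have h3 : φ (1 - p) * φ p = 0 := hoz _ _ hpos' hpos (by rw [sub_mul, hpp]; simp)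
  have h4 : star (φ p) = φ p := by
    have := cp_selfAdjoint φ hcp p
    rwa [hp, hpp] at this
  apply ext_op
  intro n
  apply ext_e
  intro k
  rw [mul_apply_eq_comp, zero_apply, inner_zero_right, ← h4,
    ContinuousLinearMap.star_eq_adjoint, ContinuousLinearMap.adjoint_inner_right]
  have h5 := cp_vanish φ hcp (1 - p) z (φ p (e k)) (by
    rw [h1, h2, ← mul_apply_eq_comp, h3]
    rfl) (φ ((1 - p) * z) (e n) - φ ((1 - p) * z) (e n) + e n)
  rw [h1] at h5
  simpa using h5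

lemma oz_proj (hcp : IsCP ⇑φ) (hoz : IsOrderZero ⇑φ) (p : F) (hp : star p = p)
    (hpp : p * p = p) (z : F) : φ p * φ z = φ 1 * φ (p * z) := by
  have h1 := oz_proj_aux φ hcp hoz p hp hpp z
  have h2 := oz_proj_aux φ hcp hoz (1 - p) (by rw [star_sub, star_one, hp]) (by
    rw [mul_sub, sub_mul, sub_mul, hpp]
    simp) z
  rw [sub_sub_cancel] at h2
  rw [map_sub, sub_mul] at h2
  rw [sub_mul, one_mul, map_sub, mul_sub] at h1
  rw [sub_eq_zero.1 h1, sub_eq_zero.1 h2]

lemma oz_mul (hcp : IsCP ⇑φ) (hoz : IsOrderZero ⇑φ) (x z : F)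
    (hx : x ∈ Submodule.span ℂ {p : F | star p = p ∧ p * p = p}) [IsScalarTower ℂ F F] :
    φ x * φ z = φ 1 * φ (x * z) := by
  induction hx using Submodule.span_induction with
  | mem p hp => exact oz_proj φ hcp hoz p hp.1 hp.2 z
  | zero => simp
  | add a b _ _ ha hb => rw [map_add, add_mul, ha, hb, add_mul, map_add, mul_add]
  | smul c a _ ha => rw [map_smul, smul_mul_assoc, ha, smul_mul_assoc, map_smul, mul_smul_comm]

end orderZero

/-! ### Projections span a finite-dimensional C*-algebra -/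

section span

open Matrix in
lemma vecMulVec_mem_span {n : ℕ} (v : Fin n → ℂ) :
    (CStarMatrix.ofMatrix (Matrix.vecMulVec v (star v)) : CStarMatrix (Fin n) (Fin n) ℂ) ∈
      Submodule.span ℂ {p : CStarMatrix (Fin n) (Fin n) ℂ | star p = p ∧ p * p = p} := by
  set c : ℂ := star v ⬝ᵥ v with hc
  have hmul : Matrix.vecMulVec v (star v) * Matrix.vecMulVec v (star v)
      = c • Matrix.vecMulVec v (star v) := by
    rw [Matrix.vecMulVec_mul_vecMulVec, hc]
    ext i j
    simp only [Matrix.vecMulVec_apply, Matrix.smul_apply, smul_eq_mul, Pi.smul_apply]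
    ring
  have hstar : star (Matrix.vecMulVec v (star v)) = Matrix.vecMulVec v (star v) := by
    ext i j
    simp [Matrix.vecMulVec_apply, Matrix.star_apply, mul_comm]
  by_cases h0 : c = 0
  · have hv : v = 0 := by
      rw [hc, dotProduct_star_self_eq_zero] at h0
      exact h0
    have : (CStarMatrix.ofMatrix (Matrix.vecMulVec v (star v)) :
        CStarMatrix (Fin n) (Fin n) ℂ) = 0 := by
      rw [hv]
      ext i j
      simp
    rw [this]
    exact Submodule.zero_mem _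
  · have hcr : star c = c := by
      rw [hc]
      simp [dotProduct, mul_comm]
    have h1 : (CStarMatrix.ofMatrix (Matrix.vecMulVec v (star v)) :
        CStarMatrix (Fin n) (Fin n) ℂ) = c • (c⁻¹ • CStarMatrix.ofMatrix
          (Matrix.vecMulVec v (star v))) := by
      rw [smul_smul, mul_inv_cancel₀ h0, one_smul]
    rw [h1]
    refine Submodule.smul_mem _ _ (Submodule.subset_span ⟨?_, ?_⟩)
    · rw [star_smul, star_inv₀, hcr]
      congr 1
    · have h2 : (CStarMatrix.ofMatrix (Matrix.vecMulVec v (star v)) :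
        CStarMatrix (Fin n) (Fin n) ℂ) * CStarMatrix.ofMatrix (Matrix.vecMulVec v (star v)) =
          c • CStarMatrix.ofMatrix (Matrix.vecMulVec v (star v)) := hmul
      rw [smul_mul_smul_comm, h2, smul_smul]
      congr 1
      field_simp

lemma vecMulVec_mem_span' {n : ℕ} (v w : Fin n → ℂ) :
    (CStarMatrix.ofMatrix (Matrix.vecMulVec v (star w)) : CStarMatrix (Fin n) (Fin n) ℂ) ∈
      Submodule.span ℂ {p : CStarMatrix (Fin n) (Fin n) ℂ | star p = p ∧ p * p = p} := by
  set S := Submodule.span ℂ {p : CStarMatrix (Fin n) (Fin n) ℂ | star p = p ∧ p * p = p}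
  have key : (CStarMatrix.ofMatrix (Matrix.vecMulVec v (star w)) :
      CStarMatrix (Fin n) (Fin n) ℂ) = (1 / 4 : ℂ) •
      (CStarMatrix.ofMatrix (Matrix.vecMulVec (v + w) (star (v + w)))
      - CStarMatrix.ofMatrix (Matrix.vecMulVec (v - w) (star (v - w)))
      + Complex.I • CStarMatrix.ofMatrix
        (Matrix.vecMulVec (v + Complex.I • w) (star (v + Complex.I • w)))
      - Complex.I • CStarMatrix.ofMatrix
        (Matrix.vecMulVec (v - Complex.I • w) (star (v - Complex.I • w)))) := by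
    ext i j
    simp only [CStarMatrix.smul_apply, CStarMatrix.sub_apply, CStarMatrix.add_apply,
      CStarMatrix.ofMatrix_apply, Matrix.vecMulVec_apply, Pi.add_apply, Pi.sub_apply,
      Pi.smul_apply, Pi.star_apply, star_add, star_sub, star_smul, smul_eq_mul,
      Complex.star_def, Complex.conj_I]
    ring_nf
    rw [Complex.I_sq]
    ring
  rw [key]
  exact S.smul_mem _ (S.sub_mem (S.add_mem (S.sub_mem (vecMulVec_mem_span _)
    (vecMulVec_mem_span _)) (S.smul_mem _ (vecMulVec_mem_span _)))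
    (S.smul_mem _ (vecMulVec_mem_span _)))

lemma mem_span_block {n : ℕ} (x : CStarMatrix (Fin n) (Fin n) ℂ) :
    x ∈ Submodule.span ℂ {p : CStarMatrix (Fin n) (Fin n) ℂ | star p = p ∧ p * p = p} := by
  have h : x = ∑ i, ∑ j, x i j • (CStarMatrix.ofMatrix (Matrix.vecMulVec (Pi.single i 1)
      (star (Pi.single j (1 : ℂ)))) : CStarMatrix (Fin n) (Fin n) ℂ) := by
    have h1 : ∀ i j : Fin n, (x i j • (CStarMatrix.ofMatrix (Matrix.vecMulVec (Pi.single i 1)
      (star (Pi.single j (1 : ℂ)))) : CStarMatrix (Fin n) (Fin n) ℂ)) =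
      CStarMatrix.ofMatrix (Matrix.single i j (x i j)) := by
      intro i j
      ext a b
      simp only [CStarMatrix.smul_apply, CStarMatrix.ofMatrix_apply, Matrix.vecMulVec_apply,
        Pi.star_apply, Matrix.single_apply, Pi.single_apply, smul_eq_mul]
      by_cases ha : i = a <;> by_cases hb : j = b <;> simp [ha, hb, eq_comm]
    simp only [h1]
    exact Matrix.matrix_eq_sum_single x
  rw [h]
  exact Submodule.sum_mem _ fun i _ => Submodule.sum_mem _ fun j _ =>
    Submodule.smul_mem _ _ (vecMulVec_mem_span' _ _)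

lemma mem_span_alg (F : FinDim) (x : F.PAlg) :
    x ∈ Submodule.span ℂ {p : F.PAlg | star p = p ∧ p * p = p} := by
  rw [← Finset.univ_sum_single x]
  refine Submodule.sum_mem _ fun j _ => ?_
  generalize x j = y
  have hy := mem_span_block y
  induction hy using Submodule.span_induction with
  | mem p hp =>
    refine Submodule.subset_span ⟨?_, ?_⟩
    · rw [← Pi.single_star, hp.1]
    · rw [← Pi.single_mul, hp.2]
  | zero => simp
  | add a b _ _ ha hb =>
    rw [Pi.single_add]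
    exact Submodule.add_mem _ ha hb
  | smul c a _ ha =>
    rw [Pi.single_smul]
    exact Submodule.smul_mem _ _ ha

end span

/-! ### The multiplication step -/

section step

lemma norm_sq_sum {m : ℕ} (p : BH) (v : Fin m → BH) (hp : star p = p) (hpp : p * p = p)
    (hv : ∀ i j, star (v i) * v j = if i = j then p else 0) (η : Fin m → H) :
    ‖∑ i, v i (η i)‖ ^ 2 = ∑ i, ‖p (η i)‖ ^ 2 := by
  have h1 : ∀ i j, ⟪v i (η i), v j (η j)⟫_ℂ = if i = j then ((‖p (η i)‖ ^ 2 : ℝ) : ℂ) else 0 := by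
    intro i j
    rw [← ContinuousLinearMap.adjoint_inner_right, ← ContinuousLinearMap.star_eq_adjoint,
      ← mul_apply_eq_comp, hv]
    by_cases h : i = j
    · subst h
      rw [if_pos rfl, if_pos rfl, ← inner_star_mul_self, hp, hpp]
    · rw [if_neg h, if_neg h, zero_apply, inner_zero_right]
  have h2 : ((‖∑ i, v i (η i)‖ ^ 2 : ℝ) : ℂ) = ((∑ i, ‖p (η i)‖ ^ 2 : ℝ) : ℂ) := by
    have h3 : ((‖∑ i, v i (η i)‖ ^ 2 : ℝ) : ℂ) = ⟪∑ i, v i (η i), ∑ i, v i (η i)⟫_ℂ := by
      rw [inner_self_eq_norm_sq_to_K]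
      push_cast
      rfl
    rw [h3]
    push_cast
    rw [sum_inner]
    refine Finset.sum_congr rfl fun i _ => ?_
    rw [inner_sum]
    simp only [h1]
    rw [Finset.sum_ite_eq]
    simp
  exact_mod_cast h2

lemma step {m : ℕ} (hm : 0 < m) (p p' : BH) (v T : Fin m → BH) (U : Submodule ℂ H)
    [FiniteDimensional ℂ U] (hp : star p = p) (hpp : p * p = p) (hp' : ‖p'‖ ≤ 1)
    (hv : ∀ i j, star (v i) * v j = if i = j then p else 0) (hpv : ∀ i, p' * v i = v i)
    (hT : ∀ i, ‖T i - v i‖ ≤ 1 / (16 * m)) (hU : ∀ ζ ∈ U, ‖ζ - p ζ‖ ≤ ‖ζ‖ / 2) :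
    ∃ U' : Submodule ℂ H, FiniteDimensional ℂ U' ∧
      Module.finrank ℂ U' = m * Module.finrank ℂ U ∧
      (∀ ζ ∈ U', ‖ζ - p' ζ‖ ≤ ‖ζ‖ / 2) ∧
      (∀ W : Submodule ℂ H, (∀ i, ∀ η ∈ U, T i η ∈ W) → U' ≤ W) := by
  let L : (Fin m → U) →ₗ[ℂ] H :=
    ∑ i, (T i : H →ₗ[ℂ] H) ∘ₗ U.subtype ∘ₗ LinearMap.proj i
  have hL : ∀ η : Fin m → U, L η = ∑ i, T i (η i) := by
    intro η
    simp [L]
  have key : ∀ η : Fin m → U, ∃ N : ℝ, 0 ≤ N ∧ (∀ i, ‖(η i : H)‖ ≤ N) ∧
      7 / 16 * N ≤ ‖L η‖ ∧ ‖L η - p' (L η)‖ ≤ N / 8 := by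
    intro η
    set N : ℝ := Real.sqrt (∑ i, ‖(η i : H)‖ ^ 2) with hN
    have hN0 : 0 ≤ N := Real.sqrt_nonneg _
    have hN2 : N ^ 2 = ∑ i, ‖(η i : H)‖ ^ 2 :=
      Real.sq_sqrt (Finset.sum_nonneg fun i _ => sq_nonneg _)
    have hle : ∀ i, ‖(η i : H)‖ ≤ N := by
      intro i
      apply Real.le_sqrt_of_sq_le
      exact Finset.single_le_sum (f := fun i => ‖(η i : H)‖ ^ 2) (fun i _ => sq_nonneg _)
        (Finset.mem_univ i)
    set S : H := ∑ i, v i (η i) with hS
    have hS1 : ‖S‖ ^ 2 = ∑ i, ‖p (η i)‖ ^ 2 := norm_sq_sum p v hp hpp hv (fun i => (η i : H))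
    have hS2 : N / 2 ≤ ‖S‖ := by
      apply le_of_sq_le_sq _ (norm_nonneg _)
      rw [hS1, div_pow, hN2, Finset.sum_div]
      refine Finset.sum_le_sum fun i _ => ?_
      have h1 := hU (η i) (η i).2
      have h2 : ‖(η i : H)‖ / 2 ≤ ‖p (η i)‖ := by
        have h3 := norm_sub_norm_le (η i : H) (p (η i))
        linarith
      have h4 : 0 ≤ ‖(η i : H)‖ / 2 := by positivity
      calc ‖(η i : H)‖ ^ 2 / 2 ^ 2 = (‖(η i : H)‖ / 2) ^ 2 := by ring
        _ ≤ ‖p (η i)‖ ^ 2 := pow_le_pow_left₀ h4 h2 2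
    have hpS : p' S = S := by
      rw [hS, map_sum]
      refine Finset.sum_congr rfl fun i _ => ?_
      rw [← mul_apply_eq_comp, hpv]
    have hLS : ‖L η - S‖ ≤ N / 16 := by
      rw [hL, hS, ← Finset.sum_sub_distrib]
      calc ‖∑ i, (T i (η i) - v i (η i))‖ ≤ ∑ i, ‖T i (η i) - v i (η i)‖ := norm_sum_le _ _
        _ ≤ ∑ i : Fin m, 1 / (16 * m) * N := by
            refine Finset.sum_le_sum fun i _ => ?_
            rw [← sub_apply]
            exact (ContinuousLinearMap.le_opNorm _ _).trans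
              (mul_le_mul (hT i) (hle i) (norm_nonneg _) (by positivity))
        _ = N / 16 := by
            rw [Finset.sum_const, Finset.card_univ, Fintype.card_fin, nsmul_eq_mul]
            have : (m : ℝ) ≠ 0 := by positivity
            field_simp
    refine ⟨N, hN0, hle, ?_, ?_⟩
    · have h3 := norm_sub_norm_le S (L η)
      rw [norm_sub_rev] at h3
      linarith
    · have e1 : L η - p' (L η) = (L η - S) - p' (L η - S) := by
        rw [map_sub, hpS]
        abel
      rw [e1]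
      have h4 : ‖p' (L η - S)‖ ≤ ‖L η - S‖ := by
        calc _ ≤ ‖p'‖ * ‖L η - S‖ := ContinuousLinearMap.le_opNorm _ _
          _ ≤ 1 * ‖L η - S‖ := by gcongr
          _ = _ := one_mul _
      exact (norm_sub_le _ _).trans (by linarith)
  have hinj : Function.Injective L := by
    rw [injective_iff_map_eq_zero]
    intro η h0
    obtain ⟨N, hN0, hle, h1, -⟩ := key η
    rw [h0, norm_zero] at h1
    have hN : N = 0 := by linarith
    funext i
    have := hle i
    rw [hN] at this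
    have h2 : (η i : H) = 0 := norm_le_zero_iff.1 this
    exact Subtype.ext h2
  refine ⟨LinearMap.range L, inferInstance, ?_, ?_, ?_⟩
  · rw [LinearMap.finrank_range_of_inj hinj, Module.finrank_pi_fintype]
    simp
  · rintro _ ⟨η, rfl⟩
    obtain ⟨N, hN0, hle, h1, h2⟩ := key η
    linarith
  · rintro W hW _ ⟨η, rfl⟩
    rw [hL]
    exact Submodule.sum_mem _ fun i _ => hW i _ (η i).2

end step

/-! ### The lower bound -/

section lower

variable {m : ℕ}

/-- The partial isometries `α^k(s_i E_00)`. -/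
def vv (k : ℕ) (i : Fin m) : BH := (th m)^[k] (E (i + 1) 0)

lemma star_vv_mul_vv (k : ℕ) (i j : Fin m) :
    star (vv k i) * vv k j = if i = j then R m k else 0 := by
  rw [vv, vv, ← iter_apply, ← iter_apply, ← map_star, ← map_mul, star_E, E_mul]
  by_cases h : i = j
  · subst h
    rw [if_pos rfl, if_pos rfl, iter_apply]
    rfl
  · rw [if_neg h, if_neg, map_zero]
    intro h'
    exact h (Fin.ext (by omega))

lemma R_mul_vv (k : ℕ) (i : Fin m) : R m (k + 1) * vv k i = vv k i := by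
  rw [vv, ← th_iter_R m k 1, ← iter_apply, ← iter_apply, ← map_mul, iter_apply, iter_apply]
  congr 1
  have h : R m 1 = ∑ j : Fin m, E (j + 1) (j + 1) := by
    change th m (E 0 0) = _
    rw [th_E]
    simp
  rw [h, Finset.sum_mul, Finset.sum_eq_single i]
  · exact E_mul_same _ _ _
  · intro j _ hj
    rw [E_mul, if_neg]
    intro h'
    exact hj (Fin.ext (by omega))
  · simp

instance instFiniteBlock (n : ℕ) : Module.Finite ℂ (CStarMatrix (Fin n) (Fin n) ℂ) :=
  inferInstanceAs (Module.Finite ℂ (Matrix (Fin n) (Fin n) ℂ))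

lemma finrank_alg_le (F : FinDim) : Module.finrank ℂ F.PAlg ≤ F.rank ^ 2 := by
  have h1 : Module.finrank ℂ F.PAlg = ∑ j, F.n j * F.n j := by
    rw [Module.finrank_pi_fintype]
    refine Finset.sum_congr rfl fun j _ => ?_
    change Module.finrank ℂ (Matrix (Fin (F.n j)) (Fin (F.n j)) ℂ) = _
    rw [Module.finrank_matrix]
    simp
  rw [h1, FinDim.rank, sq, Finset.sum_mul]
  refine Finset.sum_le_sum fun j _ => ?_
  exact Nat.mul_le_mul_left _ (Finset.single_le_sum (f := F.n) (fun _ _ => Nat.zero_le _)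
    (Finset.mem_univ j))

/-- **The lower bound.** -/
theorem lower (hm : 0 < m) (F : FinDim) (φ : F.PAlg →ₗ[ℂ] BH) (hcp : IsCP ⇑φ)
    (hoz : IsOrderZero ⇑φ) (n : ℕ) (x : ℕ → Fin m → F.PAlg)
    (hx : ∀ k ≤ n, ∀ i, ‖φ (x k i) - vv k i‖ ≤ 1 / (16 * m)) : m ^ (n + 1) ≤ F.rank ^ 2 := by
  have hmul : ∀ a z, φ a * φ z = φ 1 * φ (a * z) := fun a z =>
    oz_mul φ hcp hoz a z (mem_span_alg F a)
  have hcomm : ∀ a, φ a * φ 1 = φ 1 * φ a := fun a => by
    rw [hmul a 1, mul_one]
  have hcommk : ∀ (k : ℕ) a, φ a * (φ 1) ^ k = (φ 1) ^ k * φ a := by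
    intro k a
    have : Commute (φ a) (φ 1) := hcomm a
    exact (this.pow_right k)
  -- the ranges
  let W : ℕ → Submodule ℂ H := fun k => LinearMap.range
    ((ContinuousLinearMap.apply ℂ H (e 0)).toLinearMap ∘ₗ
      (LinearMap.mulLeft ℂ ((φ 1) ^ k)) ∘ₗ φ)
  have hW : ∀ k z, ((φ 1) ^ k * φ z) (e 0) ∈ W k := fun k z => ⟨z, rfl⟩
  have main : ∀ k ≤ n, ∃ U : Submodule ℂ H, FiniteDimensional ℂ U ∧
      Module.finrank ℂ U = m ^ (k + 1) ∧ (∀ ζ ∈ U, ‖ζ - R m (k + 1) ζ‖ ≤ ‖ζ‖ / 2) ∧ U ≤ W k := by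
    intro k
    induction k with
    | zero =>
      intro _
      obtain ⟨U', h1, h2, h3, h4⟩ := step hm (R m 0) (R m 1) (vv 0) (fun i => φ (x 0 i))
        (Submodule.span ℂ {e 0}) (star_R m 0) (by rw [R_mul_R, if_pos rfl]) (norm_R_le m 1)
        (star_vv_mul_vv 0) (R_mul_vv 0) (hx 0 (Nat.zero_le _)) (by
          intro ζ hζ
          obtain ⟨c, rfl⟩ := Submodule.mem_span_singleton.1 hζ
          have e1 : R m 0 (e 0) = e 0 := by
            change E 0 0 (e 0) = e 0
            rw [E_apply, ← inner_e_left, inner_e, if_pos rfl, one_smul]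
          rw [map_smul, e1, sub_self, norm_zero]
          positivity)
      refine ⟨U', h1, ?_, h3, ?_⟩
      · rw [h2, finrank_span_singleton, pow_one, mul_one]
        intro h
        have := norm_e 0
        rw [h, norm_zero] at this
        exact zero_ne_one this
      · apply h4
        intro i η hη
        obtain ⟨c, rfl⟩ := Submodule.mem_span_singleton.1 hη
        rw [map_smul]
        apply Submodule.smul_mem
        have := hW 0 (x 0 i)
        rwa [pow_zero, one_mul] at this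
    | succ k ih =>
      intro hk
      obtain ⟨U, hU1, hU2, hU3, hU4⟩ := ih (by omega)
      obtain ⟨U', h1, h2, h3, h4⟩ := step hm (R m (k + 1)) (R m (k + 2)) (vv (k + 1))
        (fun i => φ (x (k + 1) i)) U (star_R m _) (by rw [R_mul_R, if_pos rfl]) (norm_R_le m _)
        (star_vv_mul_vv (k + 1)) (R_mul_vv (k + 1)) (hx (k + 1) hk) hU3
      refine ⟨U', h1, ?_, h3, ?_⟩
      · rw [h2, hU2]
        ring
      · apply h4
        intro i η hη
        obtain ⟨z, rfl⟩ := hU4 hη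
        have e1 : φ (x (k + 1) i) (((φ 1) ^ k * φ z) (e 0)) =
            ((φ 1) ^ (k + 1) * φ (x (k + 1) i * z)) (e 0) := by
          rw [← mul_apply_eq_comp, ← mul_assoc, hcommk, mul_assoc, hmul, ← mul_assoc, pow_succ]
        change φ (x (k + 1) i) (((φ 1) ^ k * φ z) (e 0)) ∈ _
        rw [e1]
        exact hW _ _
  obtain ⟨U, h1, h2, -, h4⟩ := main n le_rfl
  rw [← h2]
  calc Module.finrank ℂ U ≤ Module.finrank ℂ (W n) := Submodule.finrank_mono h4
    _ ≤ Module.finrank ℂ F.PAlg := LinearMap.finrank_range_le _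
    _ ≤ F.rank ^ 2 := finrank_alg_le F

end lower

end

end Ent75
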