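import Pool.Agent.Helper75.Ent.Lower

/-!
# The sharp lower bound
-/

open Filter Topology
open InnerProductSpace
open scoped ComplexOrder InnerProductSpace Matrix

set_option autoImplicit false

namespace Ent75

noncomputable section

/-! ### Spectral decomposition -/

/-- The rank one matrix `w u*`. -/
def r1 {n : ℕ} (w u : Fin n → ℂ) : CStarMatrix (Fin n) (Fin n) ℂ :=
  CStarMatrix.ofMatrix (Matrix.of fun i j => w i * star (u j))

lemma r1_apply {n : ℕ} (w u : Fin n → ℂ) (i j : Fin n) : r1 w u i j = w i * star (u j) := rfl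

lemma mul_r1 {n : ℕ} (z : CStarMatrix (Fin n) (Fin n) ℂ) (w u : Fin n → ℂ) :
    z * r1 w u = r1 (fun i => ∑ k, z i k * w k) u := by
  ext i j
  rw [CStarMatrix.mul_apply, r1_apply, Finset.sum_mul]
  refine Finset.sum_congr rfl fun k _ => ?_
  rw [r1_apply, mul_assoc]

lemma r1_mul_r1 {n : ℕ} (w u v x : Fin n → ℂ) :
    r1 w u * r1 v x = (∑ k, star (u k) * v k) • r1 w x := by
  ext i j
  rw [CStarMatrix.mul_apply, CStarMatrix.smul_apply, r1_apply, smul_eq_mul, Finset.sum_mul]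
  refine Finset.sum_congr rfl fun k _ => ?_
  rw [r1_apply, r1_apply]
  ring

lemma star_r1 {n : ℕ} (u : Fin n → ℂ) : star (r1 u u) = r1 u u := by
  ext i j
  rw [CStarMatrix.star_apply, r1_apply, r1_apply, star_mul, star_star, mul_comm]

lemma block_decomp {n : ℕ} (y : CStarMatrix (Fin n) (Fin n) ℂ) (hy : star y = y) :
    ∃ (c : Fin n → ℂ) (u : Fin n → Fin n → ℂ),
      (∀ a b, ∑ i, star (u a i) * u b i = if a = b then 1 else 0) ∧
      y = ∑ a, c a • r1 (u a) (u a) := by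
  have hA : (CStarMatrix.ofMatrix.symm y).IsHermitian := hy
  set U : Matrix (Fin n) (Fin n) ℂ := (hA.eigenvectorUnitary : Matrix (Fin n) (Fin n) ℂ) with hU
  have h1 : star U * U = 1 := Unitary.coe_star_mul_self _
  have h2 : CStarMatrix.ofMatrix.symm y =
      U * Matrix.diagonal (fun a => (hA.eigenvalues a : ℂ)) * star U := by
    have := hA.spectral_theorem
    rwa [Unitary.conjStarAlgAut_apply] at this
  refine ⟨fun a => (hA.eigenvalues a : ℂ), fun a i => U i a, ?_, ?_⟩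
  · intro a b
    have h3 := congrFun (congrFun h1 a) b
    rw [Matrix.mul_apply, Matrix.one_apply] at h3
    exact h3
  · ext i j
    have h3 := congrFun (congrFun h2 i) j
    rw [Matrix.mul_apply] at h3
    have h4 : ∀ f : Fin n → CStarMatrix (Fin n) (Fin n) ℂ, (∑ x, f x) i j = ∑ x, f x i j := by
      intro f
      exact Matrix.sum_apply i j Finset.univ f
    rw [h4]
    refine h3.trans (Finset.sum_congr rfl fun a _ => ?_)
    rw [Matrix.mul_diagonal, CStarMatrix.smul_apply, r1_apply, smul_eq_mul, Matrix.star_apply]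
    ring

lemma mul_single {F : FinDim} (z : F.PAlg) (j : Fin F.m)
    (B : CStarMatrix (Fin (F.n j)) (Fin (F.n j)) ℂ) :
    z * Pi.single j B = Pi.single j (z j * B) := by
  funext k
  rw [Pi.mul_apply]
  by_cases h : k = j
  · subst h
    rw [Pi.single_eq_same, Pi.single_eq_same]
  · rw [Pi.single_eq_of_ne h, Pi.single_eq_of_ne h, mul_zero]

lemma exists_decomp (F : FinDim) (y : F.PAlg) (hy : star y = y) :
    ∃ (ι : Type) (_ : Fintype ι) (_ : DecidableEq ι) (c : ι → ℂ) (p : ι → F.PAlg),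
      (∀ i, star (p i) = p i) ∧ (∀ i j, p i * p j = if i = j then p i else 0) ∧
      y = ∑ i, c i • p i ∧
      (∀ i, Module.finrank ℂ (LinearMap.range (LinearMap.mulRight ℂ (p i))) ≤ F.rank) := by
  have h : ∀ j, star (y j) = y j := fun j => congrFun hy j
  choose c u hu hc using fun j => block_decomp (y j) (h j)
  refine ⟨Σ j : Fin F.m, Fin (F.n j), inferInstance, inferInstance, fun x => c x.1 x.2,
    fun x => Pi.single x.1 (r1 (u x.1 x.2) (u x.1 x.2)), ?_, ?_, ?_, ?_⟩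
  · rintro ⟨j, a⟩
    rw [← Pi.single_star, star_r1]
  · rintro ⟨j, a⟩ ⟨k, b⟩
    rw [mul_single]
    by_cases hjk : j = k
    · subst hjk
      simp only [Pi.single_eq_same]
      rw [r1_mul_r1, hu]
      by_cases hab : a = b
      · subst hab
        rw [if_pos rfl, if_pos rfl, one_smul]
      · rw [if_neg hab, zero_smul, Pi.single_zero, if_neg]
        intro h'
        exact hab (eq_of_heq (Sigma.mk.inj h').2)
    · rw [if_neg]
      · simp only
        rw [Pi.single_eq_of_ne (Ne.symm hjk), zero_mul, Pi.single_zero]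
      · intro h'
        exact hjk (Sigma.mk.inj h').1
  · rw [Fintype.sum_sigma, ← Finset.univ_sum_single y]
    refine Finset.sum_congr rfl fun j _ => ?_
    nth_rewrite 1 [hc j]
    rw [← LinearMap.single_apply (R := ℂ), map_sum]
    refine Finset.sum_congr rfl fun a _ => ?_
    rw [map_smul, LinearMap.single_apply]
  · rintro ⟨j, a⟩
    let L : (Fin (F.n j) → ℂ) →ₗ[ℂ] F.PAlg :=
      { toFun := fun w => Pi.single j (r1 w (u j a))
        map_add' := by
          intro v w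
          rw [← Pi.single_add]
          congr 1
          ext x y
          rw [CStarMatrix.add_apply, r1_apply, r1_apply, r1_apply, Pi.add_apply, add_mul]
        map_smul' := by
          intro z w
          rw [RingHom.id_apply, ← Pi.single_smul]
          congr 1
          ext x y
          rw [CStarMatrix.smul_apply, r1_apply, r1_apply, Pi.smul_apply, smul_mul_assoc] }
    have h1 : LinearMap.range (LinearMap.mulRight ℂ
        (Pi.single j (r1 (u j a) (u j a)) : F.PAlg)) ≤ LinearMap.range L := by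
      rintro _ ⟨z, rfl⟩
      refine ⟨fun i => ∑ k, z j i k * u j a k, ?_⟩
      rw [LinearMap.mulRight_apply, mul_single, mul_r1]
      rfl
    calc _ ≤ Module.finrank ℂ (LinearMap.range L) := Submodule.finrank_mono h1
      _ ≤ Module.finrank ℂ (Fin (F.n j) → ℂ) := LinearMap.finrank_range_le _
      _ = F.n j := by simp
      _ ≤ F.rank := Finset.single_le_sum (f := F.n) (fun _ _ => Nat.zero_le _)
          (Finset.mem_univ j)

/-! ### The starting vector -/

lemma norm_sq_orth {ι : Type*} [Fintype ι] [DecidableEq ι] (A : ι → BH)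
    (hs : ∀ i, star (A i) = A i) (ho : ∀ i j, i ≠ j → A i * A j = 0) (w : ι → H) :
    ‖∑ i, A i (w i)‖ ^ 2 = ∑ i, ‖A i (w i)‖ ^ 2 := by
  have h1 : ∀ i j, ⟪A i (w i), A j (w j)⟫_ℂ =
      if i = j then ((‖A i (w i)‖ ^ 2 : ℝ) : ℂ) else 0 := by
    intro i j
    by_cases h : i = j
    · subst h
      rw [if_pos rfl, inner_self_eq_norm_sq_to_K]
      push_cast
      rfl
    · rw [if_neg h, ← ContinuousLinearMap.adjoint_inner_right,
        ← ContinuousLinearMap.star_eq_adjoint, hs, ← mul_apply_eq_comp, ho i j h, zero_apply,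
        inner_zero_right]
  have h2 : ((‖∑ i, A i (w i)‖ ^ 2 : ℝ) : ℂ) = ((∑ i, ‖A i (w i)‖ ^ 2 : ℝ) : ℂ) := by
    have h3 : ((‖∑ i, A i (w i)‖ ^ 2 : ℝ) : ℂ) = ⟪∑ i, A i (w i), ∑ i, A i (w i)⟫_ℂ := by
      rw [inner_self_eq_norm_sq_to_K]
      push_cast
      rfl
    rw [h3, Complex.ofReal_sum, sum_inner]
    refine Finset.sum_congr rfl fun i _ => ?_
    rw [inner_sum]
    simp only [h1]
    rw [Finset.sum_ite_eq, if_pos (Finset.mem_univ i)]
  exact_mod_cast h2

lemma exists_start (F : FinDim) (φ : F.PAlg →ₗ[ℂ] BH) (hcp : IsCP ⇑φ) (hoz : IsOrderZero ⇑φ)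
    (y : F.PAlg) (hy : star y = y) (hφy : ‖φ y - E 0 0‖ ≤ 1 / 16) :
    ∃ (p : F.PAlg) (η : H), φ p η ≠ 0 ∧ ‖φ p η - E 0 0 (φ p η)‖ ≤ ‖φ p η‖ / 2 ∧
      Module.finrank ℂ (LinearMap.range (LinearMap.mulRight ℂ p)) ≤ F.rank := by
  obtain ⟨ι, _, _, c, p, hps, hpp, hyc, hfr⟩ := exists_decomp F y hy
  by_contra hcon
  push Not at hcon
  set A : ι → BH := fun i => φ (p i) with hA
  have hpos : ∀ i, IsPos (p i) := by
    intro i
    have := isPos_star_mul_self (p i)
    rwa [hps, hpp, if_pos rfl] at this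
  have hAs : ∀ i, star (A i) = A i := by
    intro i
    have := cp_selfAdjoint φ hcp (p i)
    rwa [hps, hpp, if_pos rfl] at this
  have hAo : ∀ i j, i ≠ j → A i * A j = 0 := by
    intro i j hij
    exact hoz _ _ (hpos i) (hpos j) (by rw [hpp, if_neg hij])
  have hh : ∀ i η, ‖A i η‖ ≤ 2 * ‖A i η - E 0 0 (A i η)‖ := by
    intro i η
    by_cases h0 : A i η = 0
    · rw [h0, norm_zero]
      positivity
    · by_contra hlt
      push Not at hlt
      have := hcon (p i) η h0 (by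
        change ‖A i η - E 0 0 (A i η)‖ ≤ ‖A i η‖ / 2
        linarith)
      exact absurd (hfr i) (not_le.2 this)
  have hφA : φ y = ∑ i, c i • A i := by
    rw [hyc, map_sum]
    exact Finset.sum_congr rfl fun i _ => map_smul φ _ _
  have hyA : ∀ i η, φ y (A i η) = A i (c i • A i η) := by
    intro i η
    rw [hφA, sum_apply, Finset.sum_eq_single i]
    · rw [smul_apply, map_smul]
    · intro j _ hj
      rw [smul_apply, ← mul_apply_eq_comp, hAo j i hj, zero_apply, smul_zero]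
    · simp
  have hE : E 0 0 * E 0 0 = E 0 0 := E_mul_same 0 0 0
  have hEn : ‖(1 : BH) - E 0 0‖ ≤ 1 := by
    apply norm_le_one_of_proj
    · rw [star_sub, star_one, star_E]
    · rw [mul_sub, sub_mul, sub_mul, hE]
      simp
  have hsm : ∀ ξ, ‖φ y ξ - E 0 0 (φ y ξ)‖ ≤ 1 / 16 * ‖ξ‖ := by
    intro ξ
    have e1 : φ y ξ - E 0 0 (φ y ξ) = ((1 - E 0 0) * (φ y - E 0 0)) ξ := by
      have e2 : (1 - E 0 0) * (φ y - E 0 0) = φ y - E 0 0 * φ y := by
        rw [sub_mul, mul_sub, mul_sub, hE]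
        simp
      rw [e2]
      rfl
    rw [e1]
    refine (ContinuousLinearMap.le_opNorm _ _).trans ?_
    refine mul_le_mul_of_nonneg_right ?_ (norm_nonneg _)
    calc _ ≤ ‖(1 : BH) - E 0 0‖ * ‖φ y - E 0 0‖ := norm_mul_le _ _
      _ ≤ 1 * (1 / 16) := by gcongr
      _ = 1 / 16 := one_mul _
  have hv : ∀ i η, ‖A i (c i • A i η)‖ ≤ 1 / 8 * ‖A i η‖ := by
    intro i η
    have h1 := hh i (c i • A i η)
    have h2 := hsm (A i η)
    rw [hyA] at h2
    linarith
  -- apply to `e 0`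
  set N0 := ‖φ y (e 0)‖ with hN0
  have h1 : φ y (φ y (e 0)) = ∑ i, A i (c i • (c i • A i (e 0))) := by
    have e1 : φ y (e 0) = ∑ i, c i • A i (e 0) := by
      rw [hφA, sum_apply]
      exact Finset.sum_congr rfl fun i _ => smul_apply _ _ _
    rw [e1, map_sum]
    refine Finset.sum_congr rfl fun i _ => ?_
    rw [map_smul, hyA, map_smul (A i) (c i) (c i • A i (e 0))]
  have h2 : ‖φ y (φ y (e 0))‖ ^ 2 ≤ (1 / 8 * N0) ^ 2 := by
    have e1 : N0 ^ 2 = ∑ i, ‖A i (c i • e 0)‖ ^ 2 := by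
      rw [← norm_sq_orth A hAs hAo (fun i => c i • e 0), hN0, hφA, sum_apply]
      congr 2
      refine Finset.sum_congr rfl fun i _ => ?_
      rw [smul_apply, map_smul]
    rw [h1, norm_sq_orth A hAs hAo, mul_pow, e1, Finset.mul_sum]
    refine Finset.sum_le_sum fun i _ => ?_
    rw [← mul_pow]
    refine pow_le_pow_left₀ (norm_nonneg _) ?_ 2
    have h3 := hv i (c i • e 0)
    rw [map_smul (A i) (c i) (e 0)] at h3
    rw [map_smul (A i) (c i) (e 0)]
    exact h3
  have h3 : ‖φ y (φ y (e 0))‖ ≤ 1 / 8 * N0 := le_of_sq_le_sq h2 (by positivity)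
  have hE0 : E 0 0 (e 0) = e 0 := by
    rw [E_apply, ← inner_e_left, inner_e, if_pos rfl, one_smul]
  have h4 : ‖φ y (e 0) - e 0‖ ≤ 1 / 16 := by
    have e1 : φ y (e 0) - e 0 = (φ y - E 0 0) (e 0) := by
      rw [sub_apply, hE0]
    rw [e1]
    refine (ContinuousLinearMap.le_opNorm _ _).trans ?_
    rw [norm_e, mul_one]
    exact hφy
  have h5 : ‖φ y‖ ≤ 17 / 16 := by
    have e1 : φ y = (φ y - E 0 0) + E 0 0 := by abel
    rw [e1]
    refine (norm_add_le _ _).trans ?_
    rw [norm_E]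
    linarith
  have h6 : N0 ≤ 17 / 16 := by
    have e1 : φ y (e 0) = (φ y (e 0) - e 0) + e 0 := by abel
    rw [hN0, e1]
    refine (norm_add_le _ _).trans ?_
    rw [norm_e]
    linarith
  have h7 : ‖φ y (φ y (e 0) - e 0)‖ ≤ 17 / 16 * (1 / 16) :=
    (ContinuousLinearMap.le_opNorm _ _).trans (mul_le_mul h5 h4 (norm_nonneg _) (by norm_num))
  have h8 : e 0 = φ y (φ y (e 0)) - φ y (φ y (e 0) - e 0) - (φ y (e 0) - e 0) := by
    rw [map_sub]
    abel
  have h9 : ‖e 0‖ ≤ ‖φ y (φ y (e 0))‖ + ‖φ y (φ y (e 0) - e 0)‖ + ‖φ y (e 0) - e 0‖ := by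
    nth_rewrite 1 [h8]
    exact (norm_sub_le _ _).trans (add_le_add_left (norm_sub_le _ _) _)
  rw [norm_e] at h9
  linarith

/-- **The sharp lower bound.** -/
theorem lower_sharp {m : ℕ} (hm : 0 < m) (F : FinDim) (φ : F.PAlg →ₗ[ℂ] BH) (hcp : IsCP ⇑φ)
    (hoz : IsOrderZero ⇑φ) (y : F.PAlg) (hy : star y = y) (hφy : ‖φ y - E 0 0‖ ≤ 1 / 16)
    (n : ℕ) (x : ℕ → Fin m → F.PAlg)
    (hx : ∀ k ≤ n, ∀ i, ‖φ (x k i) - vv k i‖ ≤ 1 / (16 * m)) : m ^ (n + 1) ≤ F.rank := by
  obtain ⟨p, η, hζ0, hζE, hp⟩ := exists_start F φ hcp hoz y hy hφy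
  have hmul : ∀ a z, φ a * φ z = φ 1 * φ (a * z) := fun a z =>
    oz_mul φ hcp hoz a z (mem_span_alg F a)
  have hcomm : ∀ a, φ a * φ 1 = φ 1 * φ a := fun a => by
    rw [hmul a 1, mul_one]
  have hcommk : ∀ (k : ℕ) a, φ a * (φ 1) ^ k = (φ 1) ^ k * φ a := by
    intro k a
    have : Commute (φ a) (φ 1) := hcomm a
    exact (this.pow_right k)
  -- the ranges
  let W : ℕ → Submodule ℂ H := fun k => (LinearMap.range (LinearMap.mulRight ℂ p)).map
    ((ContinuousLinearMap.apply ℂ H η).toLinearMap ∘ₗ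
      (LinearMap.mulLeft ℂ ((φ 1) ^ k)) ∘ₗ φ)
  have hW : ∀ k z, ((φ 1) ^ k * φ (z * p)) η ∈ W k := fun k z => ⟨z * p, ⟨z, rfl⟩, rfl⟩
  have main : ∀ k ≤ n, ∃ U : Submodule ℂ H, FiniteDimensional ℂ U ∧
      Module.finrank ℂ U = m ^ (k + 1) ∧ (∀ ζ ∈ U, ‖ζ - R m (k + 1) ζ‖ ≤ ‖ζ‖ / 2) ∧
      U ≤ W (k + 1) := by
    intro k
    induction k with
    | zero =>
      intro _
      obtain ⟨U', h1, h2, h3, h4⟩ := step hm (R m 0) (R m 1) (vv 0) (fun i => φ (x 0 i))
        (Submodule.span ℂ {φ p η}) (star_R m 0) (by rw [R_mul_R, if_pos rfl]) (norm_R_le m 1)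
        (star_vv_mul_vv 0) (R_mul_vv 0) (hx 0 (Nat.zero_le _)) (by
          intro ζ hζ
          obtain ⟨c, rfl⟩ := Submodule.mem_span_singleton.1 hζ
          change ‖c • φ p η - E 0 0 (c • φ p η)‖ ≤ ‖c • φ p η‖ / 2
          rw [map_smul, ← smul_sub, norm_smul, norm_smul]
          have := mul_le_mul_of_nonneg_left hζE (norm_nonneg c)
          linarith)
      refine ⟨U', h1, ?_, h3, ?_⟩
      · rw [h2, finrank_span_singleton hζ0, pow_one, mul_one]
      · apply h4
        intro i ξ hξ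
        obtain ⟨c, rfl⟩ := Submodule.mem_span_singleton.1 hξ
        rw [map_smul]
        apply Submodule.smul_mem
        have := hW 1 (x 0 i)
        rwa [pow_one, ← hmul, mul_apply_eq_comp] at this
    | succ k ih =>
      intro hk
      obtain ⟨U, hU1, hU2, hU3, hU4⟩ := ih (by omega)
      obtain ⟨U', h1, h2, h3, h4⟩ := step hm (R m (k + 1)) (R m (k + 2)) (vv (k + 1))
        (fun i => φ (x (k + 1) i)) U (star_R m _) (by rw [R_mul_R, if_pos rfl]) (norm_R_le m _)
        (star_vv_mul_vv (k + 1)) (R_mul_vv (k + 1)) (hx (k + 1) hk) hU3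
      refine ⟨U', h1, ?_, h3, ?_⟩
      · rw [h2, hU2]
        ring
      · apply h4
        intro i ξ hξ
        obtain ⟨_, ⟨z, rfl⟩, rfl⟩ := hU4 hξ
        have e1 : φ (x (k + 1) i) (((φ 1) ^ (k + 1) * φ (z * p)) η) =
            ((φ 1) ^ (k + 2) * φ (x (k + 1) i * z * p)) η := by
          rw [← mul_apply_eq_comp, ← mul_assoc, hcommk, mul_assoc, hmul, ← mul_assoc, ← pow_succ,
            mul_assoc (x (k + 1) i)]
        change φ (x (k + 1) i) (((φ 1) ^ (k + 1) * φ (z * p)) η) ∈ _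
        rw [e1]
        exact hW _ _
  obtain ⟨U, h1, h2, -, h4⟩ := main n le_rfl
  rw [← h2]
  calc Module.finrank ℂ U ≤ Module.finrank ℂ (W (n + 1)) := Submodule.finrank_mono h4
    _ ≤ Module.finrank ℂ (LinearMap.range (LinearMap.mulRight ℂ p)) :=
        Submodule.finrank_map_le _ _
    _ ≤ F.rank := hp

end

end Ent75
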