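import Pool.Agent.Helper75.Ent.Upper3
import Pool.Agent.Helper75.Ent.Sharp

/-!
# The entropies of the endomorphism
-/

open Filter Topology
open InnerProductSpace
open scoped ComplexOrder InnerProductSpace ENNReal

set_option autoImplicit false

namespace Ent75

noncomputable section

variable {m : ℕ}

/-! ### The dimension of the algebra is zero -/

lemma io_one (D : ℕ) : io D 1 = P D := by
  rw [← kap_one, io_kap, mul_one, P_mul_P le_rfl]

lemma io_mul_om (D : ℕ) (b : CStarMatrix (Fin D) (Fin D) ℂ) :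
    inc 1 D 0 b * om D = 0 := by
  apply AA_ext
  · rw [map_mul, pr1_inc, pr1_om, map_zero]
    change io D b * (1 - P D) = 0
    rw [mul_sub, mul_one, ← io_one, ← map_mul, mul_one, sub_self]
  · rw [map_mul, pr2_inc, zero_mul, map_zero]

lemma star_om (D : ℕ) : star (om D) = om D := by
  apply AA_ext
  · rw [map_star, pr1_om, star_one_sub_P]
  · rw [map_star, pr2_om, star_one]

lemma om_mul_io (D : ℕ) (b : CStarMatrix (Fin D) (Fin D) ℂ) :
    om D * inc 1 D 0 b = 0 := by
  have h := congrArg star (io_mul_om D (star b))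
  rwa [star_mul, star_om, ← map_star, star_star, star_zero] at h

lemma om_mul_om (D : ℕ) : om D * om D = om D := by
  have := om_mul D
  rwa [star_om] at this

/-- The algebras `M_D ⊕ ℂ`. -/
abbrev FD (D : ℕ) : FinDim := FinDim.mk 2 ![D, 1]

/-- The inclusion of `M_D ⊕ ℂ`. -/
def phi0 (D : ℕ) : (FD D).PAlg →⋆ₙₐ[ℂ] AAlg where
  toFun b := inc 1 D 0 (b 0) + (show CStarMatrix (Fin 1) (Fin 1) ℂ from b 1) 0 0 • om D
  map_smul' z b := by
    change inc 1 D 0 (z • (show CStarMatrix (Fin D) (Fin D) ℂ from b 0)) +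
      (z • (show CStarMatrix (Fin 1) (Fin 1) ℂ from b 1)) 0 0 • om D = _
    rw [map_smul, CStarMatrix.smul_apply, MonoidHom.id_apply, smul_add, smul_assoc]
  map_zero' := by
    change inc 1 D 0 (0 : CStarMatrix (Fin D) (Fin D) ℂ) +
      (0 : CStarMatrix (Fin 1) (Fin 1) ℂ) 0 0 • om D = _
    rw [map_zero, CStarMatrix.zero_apply, zero_smul, add_zero]
  map_add' a b := by
    change inc 1 D 0 ((show CStarMatrix (Fin D) (Fin D) ℂ from a 0) +
      (show CStarMatrix (Fin D) (Fin D) ℂ from b 0)) +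
      ((show CStarMatrix (Fin 1) (Fin 1) ℂ from a 1) +
      (show CStarMatrix (Fin 1) (Fin 1) ℂ from b 1)) 0 0 • om D = _
    rw [map_add, CStarMatrix.add_apply, add_smul]
    abel
  map_mul' a b := by
    change inc 1 D 0 ((show CStarMatrix (Fin D) (Fin D) ℂ from a 0) *
      (show CStarMatrix (Fin D) (Fin D) ℂ from b 0)) +
      ((show CStarMatrix (Fin 1) (Fin 1) ℂ from a 1) *
      (show CStarMatrix (Fin 1) (Fin 1) ℂ from b 1)) 0 0 • om D = _
    rw [map_mul, CStarMatrix.mul_apply, Fin.sum_univ_one, add_mul, mul_add, mul_add,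
      mul_smul_comm, io_mul_om, smul_zero, add_zero, smul_mul_assoc, om_mul_io, smul_zero,
      zero_add, smul_mul_smul_comm, om_mul_om]
  map_star' b := by
    change inc 1 D 0 (star (show CStarMatrix (Fin D) (Fin D) ℂ from b 0)) +
      (star (show CStarMatrix (Fin 1) (Fin 1) ℂ from b 1)) 0 0 • om D = _
    rw [map_star, CStarMatrix.star_apply, star_add, star_smul, star_om]

/-- The coordinates of the compression to `M_D ⊕ ℂ`. -/
def psi0c (D : ℕ) : ∀ j : Fin 2, AAlg →ₗ[ℂ] CStarMatrix (Fin (![D, 1] j)) (Fin (![D, 1] j)) ℂ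
  | 0 => psi1 one_pos D 0
  | 1 => psi2 1

/-- The compression to `M_D ⊕ ℂ`. -/
def psi0 (D : ℕ) : AAlg →ₗ[ℂ] (FD D).PAlg := LinearMap.pi (psi0c D)

lemma isCP_psi0 (D : ℕ) : IsCP (psi0 D) := by
  refine isCP_pi fun j => ?_
  change IsCP (fun x => psi0c D j x)
  match j with
  | 0 => exact isCP_psi1 one_pos D 0
  | 1 => exact isCP_psi2 1

lemma contr_psi0 (D : ℕ) : IsContractive (psi0 D) := by
  intro x
  rw [pi_norm_le_iff_of_nonneg (norm_nonneg x)]
  intro j
  match j with
  | 0 => exact (norm_kap_le D _).trans ((norm_lam_le one_pos _ _).trans (norm_pr1_le x))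
  | 1 =>
    change ‖pr2 x • (1 : CStarMatrix (Fin 1) (Fin 1) ℂ)‖ ≤ ‖x‖
    rw [norm_smul]
    calc _ ≤ ‖pr2 x‖ * 1 := by
          gcongr
          exact norm_one_block_le 1
      _ ≤ ‖x‖ := by
          rw [mul_one]
          exact norm_pr2_le x

lemma phi0_psi0 (D : ℕ) (x : AAlg) : ‖phi0 D (psi0 D x) - x‖ ≤
    ‖P D * (pr1 x - pr2 x • 1) * P D - (pr1 x - pr2 x • 1)‖ := by
  have h1 : phi0 D (psi0 D x) = inc 1 D 0 (kap D (lam one_pos 0 (pr1 x))) +
      (pr2 x • (1 : CStarMatrix (Fin 1) (Fin 1) ℂ)) 0 0 • om D := rfl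
  have h2 : lam (m := 1) one_pos 0 (pr1 x) = pr1 x := by
    rw [lam, pow_zero, star_one, one_mul, mul_one]
  have h3 : (pr2 x • (1 : CStarMatrix (Fin 1) (Fin 1) ℂ)) 0 0 = pr2 x := by
    rw [CStarMatrix.smul_apply, CStarMatrix.one_apply, if_pos rfl, smul_eq_mul, mul_one]
  rw [h1, h2, h3, norm_AA, max_le_iff]
  refine ⟨le_of_eq ?_, ?_⟩
  · rw [map_sub, map_add, pr1_inc, map_smul, pr1_om]
    change ‖io D (kap D (pr1 x)) + pr2 x • (1 - P D) - pr1 x‖ = _
    rw [io_kap]
    congr 1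
    rw [mul_sub, sub_mul, mul_smul_comm, mul_one, smul_mul_assoc, P_mul_P le_rfl, smul_sub]
    abel
  · rw [map_sub, map_add, pr2_inc, map_smul, pr2_om, smul_eq_mul, mul_one, zero_add, sub_self,
      norm_zero]
    exact norm_nonneg _

lemma decomposableC_of (D : ℕ) (G : Set AAlg) {ε : ℝ}
    (hD : ∀ x ∈ G, ‖P D * (pr1 x - pr2 x • 1) * P D - (pr1 x - pr2 x • 1)‖ ≤ ε) :
    DecomposableC 0 G ε (D + 1) := by
  have key : DecomposableC 0 G ε (FD D).rank := by
    refine decomposableC_zero_of (FD D) (psi0 D) (phi0 D : (FD D).PAlg →ₗ[ℂ] AAlg) (isCP_psi0 D)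
      (contr_psi0 D) (isCP_starHom (phi0 D)) ?_ ?_ ?_
    · intro x
      exact NonUnitalStarAlgHom.norm_apply_le (phi0 D) x
    · intro a b _ _ hab
      change phi0 D a * phi0 D b = 0
      rw [← map_mul, hab, map_zero]
    · intro a ha
      exact (phi0_psi0 D a).trans (hD a ha)
  have hr : (FD D).rank = D + 1 := by
    change ∑ j : Fin 2, (![D, 1] : Fin 2 → ℕ) j = D + 1
    rw [Fin.sum_univ_two]
    rfl
  rwa [hr] at key

lemma decomposableC (G : Set AAlg) (hG : G.Finite) {ε : ℝ} (hε : 0 < ε) :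
    ∃ r, DecomposableC 0 G ε r := by
  have h1 : ∀ x ∈ G, ∀ᶠ D in atTop, ‖P D * (pr1 x - pr2 x • 1) * P D -
      (pr1 x - pr2 x • 1)‖ < ε := by
    intro x _
    have h3 := (Metric.tendsto_nhds.1 (isK_pr x).tendsto) ε hε
    filter_upwards [h3] with q hq
    rwa [dist_eq_norm] at hq
  obtain ⟨D, hD⟩ := ((Filter.eventually_all_finite hG).2 h1).exists
  exact ⟨_, decomposableC_of D G fun x hx => (hD x hx).le⟩

lemma P_mul_iter {L k q : ℕ} (hL : k + q ≤ L) {X : BH} (hX : P (wd m q) * X = X) :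
    P (wd m L) * (th m)^[k] X = (th m)^[k] X := by
  nth_rewrite 1 [← hX]
  rw [iter_mul, ← mul_assoc, P_eq_Q, P_eq_Q, th_iter_Q, Q_mul_Q]
  have h1 : Finset.range L ∩ (Finset.range q).map (addLeftEmbedding k) =
      (Finset.range q).map (addLeftEmbedding k) := by
    ext l
    rw [Finset.mem_inter, Finset.mem_map]
    constructor
    · rintro ⟨-, h⟩
      exact h
    · rintro ⟨j, hj, rfl⟩
      refine ⟨?_, j, hj, rfl⟩
      rw [Finset.mem_range] at hj ⊢
      change k + j < L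
      omega
  rw [h1, ← th_iter_Q, ← P_eq_Q, ← iter_mul, hX]

lemma iter_mul_P {L k q : ℕ} (hL : k + q ≤ L) {X : BH} (hX : X * P (wd m q) = X) :
    (th m)^[k] X * P (wd m L) = (th m)^[k] X := by
  have h1 : P (wd m q) * star X = star X := by
    have := congrArg star hX
    rwa [star_mul, star_P] at this
  have h2 := congrArg star (P_mul_iter hL h1)
  rwa [star_mul, star_P, ← iter_apply, ← map_star, star_star, iter_apply] at h2

lemma compress_err {L k q : ℕ} (hL : k + q ≤ L) (T : BH) :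
    ‖P (wd m L) * (th m)^[k] T * P (wd m L) - (th m)^[k] T‖ ≤
      2 * ‖P (wd m q) * T * P (wd m q) - T‖ := by
  set X := P (wd m q) * T * P (wd m q) with hX
  have hX1 : P (wd m q) * X = X := by
    rw [hX, ← mul_assoc, ← mul_assoc, P_mul_P le_rfl]
  have hX2 : X * P (wd m q) = X := by
    rw [hX, mul_assoc, P_mul_P le_rfl]
  have h2 : T = X + (T - X) := by abel
  have h3 : (th m)^[k] T = (th m)^[k] X + (th m)^[k] (T - X) := by
    nth_rewrite 1 [h2]
    rw [← iter_apply, map_add, iter_apply, iter_apply]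
  have h5 : ‖(th m)^[k] (T - X)‖ ≤ ‖X - T‖ := by
    refine (norm_th_iterate_le _ _).trans ?_
    rw [norm_sub_rev]
  have h6 : ‖P (wd m L) * (th m)^[k] (T - X) * P (wd m L)‖ ≤ ‖X - T‖ := by
    calc _ ≤ ‖P (wd m L)‖ * ‖(th m)^[k] (T - X)‖ * ‖P (wd m L)‖ :=
          (norm_mul_le _ _).trans (mul_le_mul_of_nonneg_right (norm_mul_le _ _) (norm_nonneg _))
      _ ≤ 1 * ‖X - T‖ * 1 := by
          gcongr
          · exact norm_P_le _
          · exact norm_P_le _
      _ = ‖X - T‖ := by ring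
  have e1 : P (wd m L) * (th m)^[k] T * P (wd m L) - (th m)^[k] T =
      P (wd m L) * (th m)^[k] (T - X) * P (wd m L) - (th m)^[k] (T - X) := by
    rw [h3, mul_add, add_mul, P_mul_iter hL hX1, iter_mul_P hL hX2]
    abel
  rw [e1]
  exact (norm_sub_le _ _).trans (by linarith)

lemma pr_al_iter (k : ℕ) (x : AAlg) : pr1 ((al m)^[k] x) - pr2 ((al m)^[k] x) • 1 =
    (th m)^[k] (pr1 x - pr2 x • 1) := by
  rw [pr1_al_iter, pr2_al_iter, add_sub_cancel_right]

/-- The rank of the decomposable systems grows exponentially at most with rate `log m`. -/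
lemma decomposableC_orbit (hm : 0 < m) (G : Set AAlg) (hG : G.Finite) {ε : ℝ} (hε : 0 < ε) :
    ∃ q : ℕ, ∀ n : ℕ, DecomposableC 0 (orbitSet (al m) G n) ε
      (wd m (n + q) + 1) := by
  have h1 : ∀ x ∈ G, ∀ᶠ q in atTop, ‖P (wd m q) * (pr1 x - pr2 x • 1) * P (wd m q) -
      (pr1 x - pr2 x • 1)‖ < ε / 2 := by
    intro x _
    have h2 := (isK_pr x).tendsto.comp
      (tendsto_atTop_mono (fun L => le_wd m hm L) tendsto_id)
    have h3 := (Metric.tendsto_nhds.1 h2) (ε / 2) (by positivity)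
    filter_upwards [h3] with q hq
    rwa [dist_eq_norm] at hq
  obtain ⟨q, hq⟩ := ((Filter.eventually_all_finite hG).2 h1).exists
  refine ⟨q, fun n => decomposableC_of _ _ ?_⟩
  rintro _ ⟨k, hk, x, hx, rfl⟩
  change ‖P (wd m (n + q)) * (pr1 ((al m)^[k] x) - pr2 ((al m)^[k] x) • 1) * P (wd m (n + q)) -
    (pr1 ((al m)^[k] x) - pr2 ((al m)^[k] x) • 1)‖ ≤ ε
  rw [pr_al_iter]
  refine (compress_err (q := q) (by omega) _).trans ?_
  have := hq x hx
  linarith

lemma wd_lt_pow (hm : 2 ≤ m) (L : ℕ) : wd m L + 1 ≤ m ^ L := by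
  induction L with
  | zero => simp [wd]
  | succ L ih =>
    rw [wd, pow_succ]
    nlinarith

theorem decRank_eq : decRank AAlg = 0 := by
  refine le_antisymm ?_ zero_le
  exact iInf₂_le (0 : ℕ) fun G ε hG hε => decomposableC G hG hε

theorem dimNuc_eq : dimNuc AAlg = 0 := by
  refine le_antisymm ?_ zero_le
  refine iInf₂_le (0 : ℕ) fun G ε hG hε => ?_
  obtain ⟨r, hr⟩ := decomposableC G hG hε
  exact ⟨r, hr.decomposable⟩

/-! ### `ht` vanishes -/

lemma tendsto_log_div (a b : ℕ) :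
    Tendsto (fun n : ℕ => Real.log (((n + a + 1) * (b + 1) : ℕ) : ℝ) / n) atTop (𝓝 0) := by
  have h1 : Tendsto (fun n : ℕ => (((n + a + 1) * (b + 1) : ℕ) : ℝ)) atTop atTop := by
    refine tendsto_natCast_atTop_atTop.comp (tendsto_atTop_mono (fun n => ?_) tendsto_id)
    change n ≤ _
    nlinarith
  have h2 : Tendsto (fun n : ℕ => Real.log (((n + a + 1) * (b + 1) : ℕ) : ℝ) /
      (((n + a + 1) * (b + 1) : ℕ) : ℝ)) atTop (𝓝 0) :=
    (Real.isLittleO_log_id_atTop.tendsto_div_nhds_zero).comp h1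
  have h3 : Tendsto (fun n : ℕ => (((n + a + 1) * (b + 1) : ℕ) : ℝ) / n) atTop
      (𝓝 ((b : ℝ) + 1)) := by
    have h4 : Tendsto (fun n : ℕ => ((b : ℝ) + 1) + ((a + 1) * (b + 1)) / (n : ℝ)) atTop
        (𝓝 ((b : ℝ) + 1 + 0)) :=
      tendsto_const_nhds.add (tendsto_const_div_atTop_nhds_zero_nat _)
    rw [add_zero] at h4
    refine h4.congr' ?_
    filter_upwards [eventually_gt_atTop 0] with n hn
    have hn' : (n : ℝ) ≠ 0 := by positivity
    push_cast
    field_simp
    ring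
  have h5 := h2.mul h3
  rw [zero_mul] at h5
  refine h5.congr' ?_
  filter_upwards [eventually_gt_atTop 0] with n hn
  have hn' : (n : ℝ) ≠ 0 := by positivity
  have hv : (((n + a + 1) * (b + 1) : ℕ) : ℝ) ≠ 0 := by positivity
  field_simp

lemma infRank_le {S : ℕ → Prop} {r : ℕ} (h : S r) : infRank S ≤ r := iInf₂_le r h

lemma coe_div_nat (x : ℝ) (n : ℕ) : (x : EReal) / (n : EReal) = ((x / n : ℝ) : EReal) := by
  rw [EReal.coe_div]
  rfl

theorem ht_le_zero (hm : 0 < m) : ht (al m) ≤ 0 := by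
  refine iSup_le fun G => iSup_le fun hG => iSup_le fun ε => iSup_le fun hε => ?_
  obtain ⟨a, b, hab⟩ := cpApprox hm G hG hε
  have h1 : ∀ n : ℕ, ENNReal.log (infRank (CPApprox (orbitSet (al m) G n) ε))
      / (n : EReal) ≤ ((Real.log (((n + a + 1) * (b + 1) : ℕ) : ℝ) / n : ℝ) : EReal) := by
    intro n
    rw [← coe_div_nat]
    refine EReal.div_le_div_right_of_nonneg (by positivity) ?_
    have h2 : infRank (CPApprox (orbitSet (al m) G n) ε) ≤
        ENNReal.ofReal (((n + a + 1) * (b + 1) : ℕ) : ℝ) := by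
      refine (infRank_le (hab n)).trans ?_
      rw [ENNReal.ofReal_natCast]
      exact_mod_cast Nat.mul_le_mul (by omega) (by omega)
    refine (ENNReal.log_monotone h2).trans ?_
    rw [ENNReal.log_ofReal_of_pos (by positivity)]
  refine (limsup_le_limsup (Eventually.of_forall h1)).trans ?_
  have h3 : Tendsto (fun n : ℕ => ((Real.log (((n + a + 1) * (b + 1) : ℕ) : ℝ) / n : ℝ) : EReal))
      atTop (𝓝 ((0 : ℝ) : EReal)) := by
    exact (continuous_coe_real_ereal.tendsto 0).comp (tendsto_log_div a b)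
  rw [h3.limsup_eq]
  rfl

lemma pr2_one : pr2 (1 : AAlg) = 1 := rfl

lemma al_iter_one (k : ℕ) : (al m)^[k] 1 = 1 := by
  induction k with
  | zero => rfl
  | succ k ih => rw [Function.iterate_succ_apply', ih, map_one]

lemma subsingleton_of_rank_eq_zero (F : FinDim) (h : F.rank = 0) : Subsingleton F.PAlg := by
  have h1 : ∀ j, F.n j = 0 := by
    intro j
    exact (Finset.sum_eq_zero_iff.1 h) j (Finset.mem_univ j)
  refine ⟨fun x y => ?_⟩
  funext j
  ext a
  have h2 := a.2
  have h3 := h1 j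
  omega

theorem zero_le_ht : 0 ≤ ht (al m) := by
  have h1 : limsup (fun n : ℕ => ENNReal.log (infRank (CPApprox (orbitSet
      (al m) {1} n) (1 / 2))) / (n : EReal)) atTop ≤
      ht (al m) := by
    refine le_iSup_of_le {1} (le_iSup_of_le (Set.finite_singleton _) (le_iSup_of_le (1 / 2)
      (le_iSup_of_le (by norm_num) le_rfl)))
  refine le_trans ?_ h1
  have h2 : limsup (fun _ : ℕ => (0 : EReal)) atTop ≤ limsup (fun n : ℕ => ENNReal.log (infRank
      (CPApprox (orbitSet (al m) {1} n) (1 / 2))) / (n : EReal)) atTop := by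
    refine limsup_le_limsup ?_
    filter_upwards [eventually_gt_atTop 0] with n hn
    refine EReal.div_nonneg ?_ (by positivity)
    rw [ENNReal.zero_le_log_iff]
    refine le_iInf₂ fun r hr => ?_
    rcases Nat.eq_zero_or_pos r with h0 | h0
    · exfalso
      obtain ⟨F, ψ, φ, -, hφ, happ, hrank⟩ := hr
      have hs := subsingleton_of_rank_eq_zero F (hrank.trans h0)
      have h3 := happ 1 ⟨0, hn, 1, rfl, rfl⟩
      have h4 : ψ 1 = (0 : F.Alg) := Subsingleton.elim (α := F.PAlg) _ _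
      rw [h4, hφ.1.map_zero, zero_sub, norm_neg] at h3
      have h5 := norm_pr2_le (1 : AAlg)
      rw [pr2_one, norm_one] at h5
      linarith
    · exact_mod_cast h0
  rwa [limsup_const] at h2

theorem ht_eq (hm : 0 < m) : ht (al m) = 0 :=
  le_antisymm (ht_le_zero hm) zero_le_ht

/-! ### The lower bounds -/

lemma pr1_al_kk (k : ℕ) (T : BH) (h : IsK T) : pr1 ((al m)^[k] (kk T h)) = (th m)^[k] T := by
  rw [pr1_al_iter, pr1_kk, pr2_kk, zero_smul, sub_zero, add_zero]

/-- The finite set of partial isometries, and the first projection. -/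
def GG (m : ℕ) : Set AAlg :=
  insert (kk (E 0 0) (isK_E 0 0)) (Set.range fun i : Fin m => kk (E (i + 1) 0) (isK_E _ _))

lemma cp_selfAdjoint' {A B : Type*} [NonUnitalSemiring A] [StarRing A] [NonUnitalSemiring B]
    [StarRing B] {φ : A → B} (h : IsCP φ) (a : A) : star (φ (star a * a)) = φ (star a * a) := by
  have h1 := (h 1 _ (isPos_star_mul_self (Matrix.of fun _ _ : Fin 1 => a))).isSelfAdjoint
  have h2 := congrFun (congrFun h1 0) 0
  simp only [Matrix.star_apply, Matrix.map_apply, Matrix.mul_apply, Fin.sum_univ_one,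
    Matrix.of_apply] at h2
  exact h2

lemma rank_ge (hm : 0 < m) {n : ℕ} (hn : 0 < n) {r : ℕ}
    (h : Decomposable 0 (orbitSet (al m) (GG m) n) (1 / (16 * m)) r) :
    m ^ n ≤ r := by
  obtain ⟨F, ψ, φ, hψ, hcp, hoz, happ, hr⟩ := h.out
  rw [← hr]
  obtain ⟨n, rfl⟩ : ∃ k, n = k + 1 := ⟨n - 1, by omega⟩
  let Φ : F.PAlg →ₗ[ℂ] BH := (pr1 : AAlg →ₗ[ℂ] BH) ∘ₗ φ
  have hΦ : ∀ x, Φ x = pr1 (φ x) := fun x => rfl
  have he : star (kk (E 0 0) (isK_E 0 0)) * kk (E 0 0) (isK_E 0 0) =
      kk (E 0 0) (isK_E 0 0) := by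
    apply AA_ext
    · rw [map_mul, map_star, pr1_kk, star_E, E_mul_same]
    · rw [map_mul, pr2_kk, mul_zero]
  have hmR : (1 : ℝ) ≤ m := by exact_mod_cast hm
  refine lower_sharp hm F Φ ((isCP_starHom pr1).comp hcp) ?_
    (ψ (kk (E 0 0) (isK_E 0 0))) ?_ ?_ n
    (fun k i => ψ ((al m)^[k] (kk (E (i + 1) 0) (isK_E _ _)))) ?_
  · intro a b ha hb hab
    have h1 := hoz a b ha hb hab
    rw [hΦ, hΦ, ← map_mul, h1, map_zero]
  · have h1 := cp_selfAdjoint' hψ (kk (E 0 0) (isK_E 0 0))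
    rwa [he] at h1
  · have h1 := happ (kk (E 0 0) (isK_E 0 0)) ⟨0, Nat.succ_pos n, _, Or.inl rfl, rfl⟩
    rw [hΦ]
    have h2 : pr1 (φ (ψ (kk (E 0 0) (isK_E 0 0)))) - E 0 0 =
        pr1 (φ (ψ (kk (E 0 0) (isK_E 0 0))) - kk (E 0 0) (isK_E 0 0)) := by
      rw [map_sub, pr1_kk]
    rw [h2]
    refine (norm_pr1_le _).trans (h1.trans ?_)
    exact one_div_le_one_div_of_le (by norm_num) (by linarith)
  · intro k hk i
    rw [hΦ, vv, ← pr1_al_kk k _ (isK_E _ _), ← map_sub]
    refine (norm_pr1_le _).trans (happ _ ?_)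
    exact ⟨k, by omega, _, Or.inr ⟨i, rfl⟩, rfl⟩

lemma entropy_ge (hm : 0 < m) (S : Set AAlg → ℝ → ℕ → Prop)
    (hS : ∀ G ε r, S G ε r → Decomposable 0 G ε r) :
    (Real.log m : EReal) ≤ entropy S (al m) := by
  have hmR : (0 : ℝ) < m := by exact_mod_cast hm
  have h1 : limsup (fun n : ℕ => ENNReal.log (infRank (S (orbitSet
      (al m) (GG m) n) (1 / (16 * m)))) / (n : EReal)) atTop ≤
      entropy S (al m) := by
    refine le_iSup_of_le (GG m) (le_iSup_of_le ((Set.finite_range _).insert _)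
      (le_iSup_of_le (1 / (16 * m)) (le_iSup_of_le (by positivity) le_rfl)))
  refine le_trans ?_ h1
  have h2 : limsup (fun _ : ℕ => (Real.log m : EReal)) atTop ≤
      limsup (fun n : ℕ => ENNReal.log (infRank (S (orbitSet
      (al m) (GG m) n) (1 / (16 * m)))) / (n : EReal)) atTop := by
    refine limsup_le_limsup ?_
    filter_upwards [eventually_gt_atTop 0] with n hn
    have hn' : (n : ℝ) ≠ 0 := by positivity
    have h3 : ENNReal.ofReal ((m : ℝ) ^ n) ≤ infRank (S (orbitSet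
      (al m) (GG m) n) (1 / (16 * m))) := by
      refine le_iInf₂ fun r hr => ?_
      have h4 := rank_ge hm hn (hS _ _ _ hr)
      rw [← ENNReal.ofReal_natCast]
      refine ENNReal.ofReal_le_ofReal ?_
      exact_mod_cast h4
    have h6 := ENNReal.log_monotone h3
    rw [ENNReal.log_ofReal_of_pos (by positivity), Real.log_pow] at h6
    have h7 : (Real.log m : EReal) = ((n * Real.log m : ℝ) : EReal) / (n : EReal) := by
      rw [coe_div_nat]
      congr 1
      field_simp
    rw [h7]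
    exact EReal.div_le_div_right_of_nonneg (by positivity) h6
  rwa [limsup_const] at h2

lemma entropy_le (hm : 2 ≤ m) (S : Set AAlg → ℝ → ℕ → Prop)
    (hS : ∀ G ε r, DecomposableC 0 G ε r → S G ε r) :
    entropy S (al m) ≤ (Real.log m : EReal) := by
  have hm0 : 0 < m := by omega
  have hmR : (0 : ℝ) < m := by exact_mod_cast hm0
  refine iSup_le fun G => iSup_le fun hG => iSup_le fun ε => iSup_le fun hε => ?_
  obtain ⟨q, hq⟩ := decomposableC_orbit hm0 G hG hε
  have h1 : ∀ n : ℕ, ENNReal.log (infRank (S (orbitSet (al m) G n) ε))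
      / (n : EReal) ≤ (((n + q : ℕ) * Real.log m / n : ℝ) : EReal) := by
    intro n
    rw [← coe_div_nat]
    refine EReal.div_le_div_right_of_nonneg (by positivity) ?_
    have h2 : infRank (S (orbitSet (al m) G n) ε) ≤
        ENNReal.ofReal ((m : ℝ) ^ (n + q)) := by
      refine (infRank_le (hS _ _ _ (hq n))).trans ?_
      rw [← ENNReal.ofReal_natCast]
      refine ENNReal.ofReal_le_ofReal ?_
      exact_mod_cast wd_lt_pow hm (n + q)
    refine (ENNReal.log_monotone h2).trans ?_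
    rw [ENNReal.log_ofReal_of_pos (by positivity), Real.log_pow]
  refine (limsup_le_limsup (Eventually.of_forall h1)).trans ?_
  have h3 : Tendsto (fun n : ℕ => ((((n + q : ℕ) * Real.log m / n : ℝ)) : EReal))
      atTop (𝓝 (Real.log m : EReal)) := by
    refine (continuous_coe_real_ereal.tendsto (Real.log m)).comp ?_
    have h4 : Tendsto (fun n : ℕ => Real.log m + (q * Real.log m) / (n : ℝ)) atTop
        (𝓝 (Real.log m + 0)) :=
      tendsto_const_nhds.add (tendsto_const_div_atTop_nhds_zero_nat _)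
    rw [add_zero] at h4
    refine h4.congr' ?_
    filter_upwards [eventually_gt_atTop 0] with n hn
    have hn' : (n : ℝ) ≠ 0 := by positivity
    push_cast
    field_simp
  rw [h3.limsup_eq]

theorem htNuc_eq (hm : 2 ≤ m) :
    htNuc (al m) = (Real.log m : EReal) := by
  rw [htNuc, dimNuc_eq, if_neg (by simp)]
  exact le_antisymm (entropy_le hm _ fun _ _ _ h => h.decomposable)
    (entropy_ge (by omega) _ fun _ _ _ h => h)

theorem htDr_eq (hm : 2 ≤ m) :
    htDr (al m) = (Real.log m : EReal) := by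
  rw [htDr, decRank_eq, if_neg (by simp)]
  exact le_antisymm (entropy_le hm _ fun _ _ _ h => h)
    (entropy_ge (by omega) _ fun _ _ _ h => h.decomposable)

end

end Ent75
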