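import Pool.Agent.Helper75.Ent.Defs

/-!
# Operators on `ℓ²(ℕ)`
-/

open Filter InnerProductSpace
open scoped ComplexOrder InnerProductSpace

set_option autoImplicit false

namespace Ent75

noncomputable section

/-- The finite-dimensional algebra as a plain product. -/
abbrev FinDim.PAlg (F : FinDim) : Type :=
  ∀ j : Fin F.m, CStarMatrix (Fin (F.n j)) (Fin (F.n j)) ℂ

/-- `φ` is contractive. -/
def IsContractive {A B : Type*} [Norm A] [Norm B] (φ : A → B) : Prop := ∀ a, ‖φ a‖ ≤ ‖a‖

/-- The Hilbert space `ℓ²(ℕ)`. -/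
abbrev H : Type := lp (fun _ : ℕ => ℂ) 2

/-- Bounded operators on `ℓ²(ℕ)`. -/
abbrev BH : Type := H →L[ℂ] H

/-- The standard basis. -/
def e (n : ℕ) : H := lp.single 2 n (1 : ℂ)

lemma inner_e_left (n : ℕ) (x : H) : ⟪e n, x⟫_ℂ = x n := by
  rw [e, lp.inner_single_left]
  simp

lemma inner_e (i j : ℕ) : ⟪e i, e j⟫_ℂ = if i = j then 1 else 0 := by
  rw [inner_e_left, e]
  by_cases h : i = j
  · subst h
    simp
  · rw [if_neg h, lp.single_apply]
    simp [h]

lemma norm_e (n : ℕ) : ‖e n‖ = 1 := by
  rw [e, lp.norm_single (by norm_num)]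
  simp

lemma orthonormal_e : Orthonormal ℂ e := by
  rw [orthonormal_iff_ite]
  exact inner_e

lemma ext_e {x y : H} (h : ∀ n, ⟪e n, x⟫_ℂ = ⟪e n, y⟫_ℂ) : x = y := by
  ext n
  rw [← inner_e_left, ← inner_e_left, h]

lemma hasSum_e (x : H) : HasSum (fun n => x n • e n) x := by
  have h := lp.hasSum_single (p := 2) (by norm_num) x
  convert h using 2 with n
  rw [e, ← lp.single_smul]
  simp

lemma ext_op {S T : BH} (h : ∀ n, S (e n) = T (e n)) : S = T := by
  ext1 x
  have h1 := (hasSum_e x).mapL S
  have h2 := (hasSum_e x).mapL T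
  refine h1.unique ?_
  convert h2 using 2 with n
  rw [map_smul, map_smul, h]

/-- Matrix units. -/
def E (i j : ℕ) : BH := rankOne ℂ (e i) (e j)

lemma E_apply (i j : ℕ) (x : H) : E i j x = x j • e i := by
  rw [E, rankOne_apply, inner_e_left]

lemma E_mul (i j k l : ℕ) : E i j * E k l = if j = k then E i l else 0 := by
  rw [E, E, ContinuousLinearMap.mul_def, rankOne_comp_rankOne, inner_e]
  by_cases h : j = k
  · rw [if_pos h, if_pos h, one_smul]
    rfl
  · rw [if_neg h, if_neg h, zero_smul]

lemma E_mul_same (i j l : ℕ) : E i j * E j l = E i l := by rw [E_mul, if_pos rfl]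

lemma star_E (i j : ℕ) : star (E i j) = E j i := by
  rw [E, ContinuousLinearMap.star_eq_adjoint, adjoint_rankOne]
  rfl

lemma norm_E (i j : ℕ) : ‖E i j‖ = 1 := by
  rw [E, norm_rankOne, norm_e, norm_e, one_mul]

section shifts

variable {m : ℕ}

/-- The isometry `e_x ↦ e_{m x + i + 1}`. -/
def sIso (i : Fin m) : H →ₗᵢ[ℂ] H :=
  (Orthonormal.comp orthonormal_e (fun x => m * x + i + 1) (by
    intro x y h
    have hm : 0 < m := i.pos
    have h' : m * x = m * y := by simpa using h
    exact Nat.eq_of_mul_eq_mul_left hm h')).orthogonalFamily.linearIsometry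

/-- The isometry `e_x ↦ e_{m x + i + 1}` as an operator. -/
def s (i : Fin m) : BH := (sIso i).toContinuousLinearMap

lemma s_e (i : Fin m) (x : ℕ) : s i (e x) = e (m * x + i + 1) := by
  change sIso i (e x) = _
  rw [sIso, e, OrthogonalFamily.linearIsometry_apply_single]
  simp

lemma star_s_mul_s (i j : Fin m) : star (s i) * s j = if i = j then 1 else 0 := by
  apply ext_op
  intro x
  apply ext_e
  intro y
  rw [mul_apply_eq_comp, ContinuousLinearMap.star_eq_adjoint,
    ContinuousLinearMap.adjoint_inner_right, s_e, s_e, inner_e]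
  have hm : 0 < m := i.pos
  by_cases h : i = j
  · subst h
    rw [if_pos rfl, one_apply_eq_self, inner_e]
    congr 1
    simp only [eq_iff_iff]
    constructor
    · intro h'
      have h'' : m * y = m * x := by omega
      exact Nat.eq_of_mul_eq_mul_left hm h''
    · rintro rfl
      rfl
  · rw [if_neg h, zero_apply, inner_zero_right, if_neg]
    intro h'
    apply h
    have h1 : (m * y + i + 1 - 1) % m = (m * x + j + 1 - 1) % m := by rw [h']
    simp only [Nat.add_sub_cancel, Nat.mul_add_mod, Nat.mod_eq_of_lt i.2, Nat.mod_eq_of_lt j.2]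
      at h1
    exact Fin.ext h1

lemma star_s_mul_s_same (i : Fin m) : star (s i) * s i = 1 := by rw [star_s_mul_s, if_pos rfl]

lemma star_s_mul_E (i : Fin m) (y : ℕ) : star (s i) * E 0 y = 0 := by
  apply ext_op
  intro x
  apply ext_e
  intro z
  rw [mul_apply_eq_comp, ContinuousLinearMap.star_eq_adjoint,
    ContinuousLinearMap.adjoint_inner_right, s_e, E_apply, inner_smul_right, inner_e,
    if_neg (by omega)]
  simp

lemma E_mul_s (i : Fin m) (y : ℕ) : E y 0 * s i = 0 := by
  have := congrArg star (star_s_mul_E i y)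
  rwa [star_mul, star_star, star_E, star_zero] at this

lemma s_mul_E_mul_star_s (i : Fin m) (x y : ℕ) :
    s i * E x y * star (s i) = E (m * x + i + 1) (m * y + i + 1) := by
  rw [E, ContinuousLinearMap.mul_def, ContinuousLinearMap.mul_def, comp_rankOne, s_e,
    ContinuousLinearMap.star_eq_adjoint, rankOne_comp, ContinuousLinearMap.adjoint_adjoint, s_e]
  rfl

end shifts

/-! ### The endomorphism -/

section theta

variable (m : ℕ)

/-- The endomorphism `T ↦ ∑ s_i T s_i^*` of the bounded operators. -/
def th : BH →⋆ₙₐ[ℂ] BH where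
  toFun T := ∑ i : Fin m, s i * T * star (s i)
  map_smul' c T := by
    simp only [mul_smul_comm, smul_mul_assoc, Finset.smul_sum, MonoidHom.id_apply]
  map_zero' := by simp
  map_add' S T := by
    simp only [mul_add, add_mul, Finset.sum_add_distrib]
  map_mul' S T := by
    rw [Finset.sum_mul]
    refine Finset.sum_congr rfl fun i _ => ?_
    rw [Finset.mul_sum, Finset.sum_eq_single i]
    · have h := star_s_mul_s_same i
      calc s i * (S * T) * star (s i) = s i * S * 1 * T * star (s i) := by
            simp only [mul_assoc, one_mul]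
        _ = _ := by
            rw [← h]
            simp only [mul_assoc]
    · intro j _ hj
      have h := star_s_mul_s i j
      rw [if_neg (Ne.symm hj)] at h
      calc s i * S * star (s i) * (s j * T * star (s j))
          = s i * S * (star (s i) * s j) * T * star (s j) := by simp only [mul_assoc]
        _ = 0 := by rw [h]; simp
    · simp
  map_star' T := by
    rw [star_sum]
    refine Finset.sum_congr rfl fun i _ => ?_
    rw [star_mul, star_mul, star_star, mul_assoc]

lemma th_apply (T : BH) : th m T = ∑ i : Fin m, s i * T * star (s i) := rfl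

lemma th_E (x y : ℕ) : th m (E x y) = ∑ i : Fin m, E (m * x + i + 1) (m * y + i + 1) := by
  rw [th_apply]
  exact Finset.sum_congr rfl fun i _ => s_mul_E_mul_star_s i x y

variable {m}

lemma star_s_mul_th (i : Fin m) (T : BH) : star (s i) * th m T = T * star (s i) := by
  rw [th_apply, Finset.mul_sum, Finset.sum_eq_single i]
  · rw [← mul_assoc, ← mul_assoc, star_s_mul_s_same, one_mul]
  · intro j _ hj
    have h := star_s_mul_s i j
    rw [if_neg (Ne.symm hj)] at h
    rw [← mul_assoc, ← mul_assoc, h]
    simp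
  · simp

lemma E_mul_th (y : ℕ) (T : BH) : E y 0 * th m T = 0 := by
  rw [th_apply, Finset.mul_sum]
  refine Finset.sum_eq_zero fun i _ => ?_
  rw [← mul_assoc, ← mul_assoc, E_mul_s]
  simp

lemma th_mul_E (y : ℕ) (T : BH) : th m T * E 0 y = 0 := by
  have := congrArg star (E_mul_th (m := m) y (star T))
  rwa [star_mul, star_E, star_zero, ← map_star, star_star] at this

lemma norm_th_le (T : BH) : ‖th m T‖ ≤ ‖T‖ := NonUnitalStarAlgHom.norm_apply_le _ _

lemma norm_th_iterate_le (k : ℕ) (T : BH) : ‖(th m)^[k] T‖ ≤ ‖T‖ := by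
  induction k with
  | zero => simp
  | succ k ih => rw [Function.iterate_succ_apply']; exact (norm_th_le _).trans ih

/-- Iterates of an endomorphism. -/
def iter {A : Type*} [NonUnitalCStarAlgebra A] (α : A →⋆ₙₐ[ℂ] A) : ℕ → (A →⋆ₙₐ[ℂ] A)
  | 0 => NonUnitalStarAlgHom.id ℂ A
  | k + 1 => α.comp (iter α k)

lemma iter_apply {A : Type*} [NonUnitalCStarAlgebra A] (α : A →⋆ₙₐ[ℂ] A) (k : ℕ) (a : A) :
    iter α k a = α^[k] a := by
  induction k with
  | zero => rfl
  | succ k ih =>
    rw [Function.iterate_succ_apply', ← ih]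
    rfl

end theta

/-! ### Projections -/

/-- The projection onto the span of `e_0, …, e_{D-1}`. -/
def P (D : ℕ) : BH := ∑ x ∈ Finset.range D, E x x

lemma star_P (D : ℕ) : star (P D) = P D := by
  rw [P, star_sum]
  exact Finset.sum_congr rfl fun x _ => star_E x x

lemma P_mul_E {D x : ℕ} (h : x < D) (y : ℕ) : P D * E x y = E x y := by
  rw [P, Finset.sum_mul, Finset.sum_eq_single x]
  · exact E_mul_same _ _ _
  · intro z _ hz
    rw [E_mul, if_neg hz]
  · intro h'
    exact absurd (Finset.mem_range.2 h) h'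

lemma E_mul_P {D x : ℕ} (h : x < D) (y : ℕ) : E y x * P D = E y x := by
  have := congrArg star (P_mul_E h y)
  rwa [star_mul, star_E, star_P] at this

lemma P_mul_P {D D' : ℕ} (h : D ≤ D') : P D' * P D = P D := by
  rw [P, P, Finset.mul_sum]
  refine Finset.sum_congr rfl fun x hx => ?_
  exact P_mul_E (lt_of_lt_of_le (Finset.mem_range.1 hx) h) x

lemma P_mul_P' {D D' : ℕ} (h : D ≤ D') : P D * P D' = P D := by
  have := congrArg star (P_mul_P h)
  rwa [star_mul, star_P, star_P] at this

lemma norm_le_one_of_proj {p : BH} (h1 : star p = p) (h2 : p * p = p) : ‖p‖ ≤ 1 := by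
  have h := CStarRing.norm_star_mul_self (x := p)
  rw [h1, h2] at h
  by_contra hc
  push Not at hc
  nlinarith [norm_nonneg p]

lemma norm_P_le (D : ℕ) : ‖P D‖ ≤ 1 := norm_le_one_of_proj (star_P D) (P_mul_P le_rfl)

lemma P_e {D x : ℕ} (h : x < D) : P D (e x) = e x := by
  rw [P, sum_apply, Finset.sum_eq_single x]
  · rw [E_apply, ← inner_e_left, inner_e, if_pos rfl, one_smul]
  · intro z _ hz
    rw [E_apply, ← inner_e_left, inner_e, if_neg hz, zero_smul]
  · intro h'
    exact absurd (Finset.mem_range.2 h) h'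

section levels

variable (m : ℕ)

/-- The projection onto the words of length `l`. -/
def R (l : ℕ) : BH := (th m)^[l] (E 0 0)

/-- The number of words of length less than `L`. -/
def wd : ℕ → ℕ
  | 0 => 0
  | L + 1 => m * wd L + 1

lemma th_P (D : ℕ) : E 0 0 + th m (P D) = P (m * D + 1) := by
  induction D with
  | zero => simp [P]
  | succ D ih =>
    have h1 : P (D + 1) = P D + E D D := by rw [P, Finset.sum_range_succ]; rfl
    have h2 : P (m * (D + 1) + 1) = P (m * D + 1) + ∑ i ∈ Finset.range m,
        E (m * D + 1 + i) (m * D + 1 + i) := by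
      rw [P, show m * (D + 1) + 1 = (m * D + 1) + m by ring, Finset.sum_range_add]
      rfl
    rw [h1, map_add, ← add_assoc, ih, h2, th_E, Finset.sum_range]
    congr 1
    refine Finset.sum_congr rfl fun i _ => ?_
    congr 1 <;> ring

lemma R_succ (l : ℕ) : R m (l + 1) = th m (R m l) := Function.iterate_succ_apply' _ _ _

lemma sum_R (L : ℕ) : ∑ l ∈ Finset.range L, R m l = P (wd m L) := by
  induction L with
  | zero => simp [P, wd]
  | succ L ih =>
    rw [Finset.sum_range_succ', wd, ← th_P, ← ih, map_sum, add_comm]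
    congr 1
    exact Finset.sum_congr rfl fun l _ => R_succ m l

lemma star_R (l : ℕ) : star (R m l) = R m l := by
  induction l with
  | zero => exact star_E 0 0
  | succ l ih => rw [R_succ, ← map_star, ih]

lemma R_mul_R (j k : ℕ) : R m j * R m k = if j = k then R m j else 0 := by
  induction j generalizing k with
  | zero =>
    cases k with
    | zero =>
      rw [if_pos rfl]
      exact E_mul_same 0 0 0
    | succ k =>
      rw [if_neg (by omega), R_succ]
      exact E_mul_th 0 _
  | succ j ih =>
    cases k with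
    | zero =>
      rw [if_neg (by omega), R_succ]
      exact th_mul_E 0 _
    | succ k =>
      rw [R_succ, R_succ, ← map_mul, ih]
      by_cases h : j = k
      · rw [if_pos h, if_pos (by omega)]
      · rw [if_neg h, if_neg (by omega), map_zero]

lemma norm_R_le (l : ℕ) : ‖R m l‖ ≤ 1 :=
  norm_le_one_of_proj (star_R m l) (by rw [R_mul_R, if_pos rfl])

lemma th_iter_R (k l : ℕ) : (th m)^[k] (R m l) = R m (k + l) := by
  rw [R, R, ← Function.iterate_add_apply]

/-- The projection onto the words with length in a finite set. -/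
def Q (S : Finset ℕ) : BH := ∑ l ∈ S, R m l

lemma star_Q (S : Finset ℕ) : star (Q m S) = Q m S := by
  rw [Q, star_sum]
  exact Finset.sum_congr rfl fun x _ => star_R m x

lemma Q_mul_R (S : Finset ℕ) (l : ℕ) : Q m S * R m l = if l ∈ S then R m l else 0 := by
  rw [Q, Finset.sum_mul]
  simp only [R_mul_R]
  rw [Finset.sum_ite_eq' S l]

lemma R_mul_Q (S : Finset ℕ) (l : ℕ) : R m l * Q m S = if l ∈ S then R m l else 0 := by
  have := congrArg star (Q_mul_R m S l)
  rw [star_mul, star_Q, star_R] at this
  rw [this]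
  split_ifs
  · exact star_R m l
  · exact star_zero _

lemma Q_mul_Q (S T : Finset ℕ) : Q m S * Q m T = Q m (S ∩ T) := by
  rw [Q, Q, Finset.sum_mul, Q, ← Finset.filter_mem_eq_inter, Finset.sum_filter]
  refine Finset.sum_congr rfl fun l _ => ?_
  exact R_mul_Q m T l

lemma norm_Q_le (S : Finset ℕ) : ‖Q m S‖ ≤ 1 :=
  norm_le_one_of_proj (star_Q m S) (by rw [Q_mul_Q, Finset.inter_self])

lemma P_eq_Q (L : ℕ) : P (wd m L) = Q m (Finset.range L) := (sum_R m L).symm

lemma th_iter_Q (k : ℕ) (S : Finset ℕ) :
    (th m)^[k] (Q m S) = Q m (S.map (addLeftEmbedding k)) := by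
  rw [Q, Q, Finset.sum_map, ← iter_apply, map_sum]
  refine Finset.sum_congr rfl fun l _ => ?_
  rw [iter_apply, th_iter_R]
  rfl

lemma wd_mono : Monotone (wd m) := by
  intro a b hab
  induction b with
  | zero => simp [Nat.le_zero.1 hab]
  | succ b ih =>
    rcases Nat.lt_or_ge a (b + 1) with h | h
    · refine (ih (by omega)).trans ?_
      clear ih hab h
      induction b with
      | zero => simp [wd]
      | succ b ihb =>
        change m * wd m b + 1 ≤ m * wd m (b + 1) + 1
        have := Nat.mul_le_mul_left m ihb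
        omega
    · rw [le_antisymm hab h]

lemma le_wd (hm : 1 ≤ m) (L : ℕ) : L ≤ wd m L := by
  induction L with
  | zero => simp
  | succ L ih =>
    rw [wd]
    nlinarith

end levels

end

end Ent75
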