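import Pool.Agent.Helper75.Ent.Lower

/-!
# Compressions to finite-dimensional blocks
-/

open Filter Topology
open InnerProductSpace
open scoped ComplexOrder InnerProductSpace

set_option autoImplicit false

namespace Ent75

noncomputable section

/-! ### Generalities on completely positive maps -/

lemma IsCP.comp {A B C : Type*} [NonUnitalSemiring A] [StarRing A] [NonUnitalSemiring B]
    [StarRing B] [NonUnitalSemiring C] [StarRing C] {φ : B → C} {ψ : A → B} (hφ : IsCP φ)
    (hψ : IsCP ψ) : IsCP (fun x => φ (ψ x)) := by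
  intro k X hX
  have := hφ k _ (hψ k X hX)
  rwa [Matrix.map_map] at this

lemma isCP_hom {A B : Type*} [NonUnitalSemiring A] [StarRing A] [NonUnitalSemiring B]
    [StarRing B] (ρ : A →+ B) (hmul : ∀ a b, ρ (a * b) = ρ a * ρ b)
    (hstar : ∀ a, ρ (star a) = star (ρ a)) : IsCP ρ := fun _ _ hX => hX.map_hom ρ hmul hstar

lemma isCP_starHom {A B : Type*} [NonUnitalCStarAlgebra A] [NonUnitalCStarAlgebra B]
    (ρ : A →⋆ₙₐ[ℂ] B) : IsCP ρ :=
  isCP_hom (ρ : A →+ B) (fun a b => map_mul ρ a b) (fun a => map_star ρ a)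

/-- Compression by `V`. -/
lemma isCP_ad {B : Type*} [NonUnitalRing B] [StarRing B] (V : B) :
    IsCP (fun T : B => star V * T * V) := by
  let φ : B →+ B :=
    { toFun := fun T => star V * T * V
      map_zero' := by simp
      map_add' := by
        intro a b
        rw [mul_add, add_mul] }
  refine isCP_of φ fun k X => ?_
  have e1 : (star X * X).map φ = star (X.map (fun y => y * V)) * (X.map (fun y => y * V)) := by
    ext i j
    simp only [Matrix.map_apply, Matrix.mul_apply, Matrix.star_apply, map_sum]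
    refine Finset.sum_congr rfl fun l _ => ?_
    change star V * (star (X l i) * X l j) * V = star (X l i * V) * (X l j * V)
    rw [star_mul]
    simp only [mul_assoc]
  rw [e1]
  exact isPos_star_mul_self _

lemma IsCP.sum {A B : Type*} [NonUnitalSemiring A] [StarRing A] [NonUnitalSemiring B]
    [StarRing B] {ι : Type*} {S : Finset ι} {φ : ι → A → B} (h : ∀ i ∈ S, IsCP (φ i)) :
    IsCP (fun x => ∑ i ∈ S, φ i x) := by
  intro k X hX
  have e1 : X.map (fun x => ∑ i ∈ S, φ i x) = ∑ i ∈ S, X.map (φ i) := by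
    ext a b
    rw [Matrix.sum_apply]
    rfl
  rw [e1]
  exact IsPos.sum fun i hi => h i hi k X hX

lemma IsCP.add {A B : Type*} [NonUnitalSemiring A] [StarRing A] [NonUnitalSemiring B]
    [StarRing B] {φ ψ : A → B} (h : IsCP φ) (h' : IsCP ψ) :
    IsCP (fun x => φ x + ψ x) := by
  intro k X hX
  have e1 : X.map (fun x => φ x + ψ x) = X.map φ + X.map ψ := by
    ext a b
    rfl
  rw [e1]
  exact (h k X hX).add (h' k X hX)

/-- A map to a finite product is completely positive if its coordinates are. -/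
lemma isCP_pi {A : Type*} [NonUnitalSemiring A] [StarRing A] {ι : Type*} [Fintype ι]
    [DecidableEq ι] {B : ι → Type*} [∀ i, NonUnitalSemiring (B i)] [∀ i, StarRing (B i)]
    {φ : A → ∀ i, B i} (h : ∀ i, IsCP (fun x => φ x i)) : IsCP φ := by
  intro k X hX
  have e1 : X.map φ = ∑ i, (X.map (fun x => φ x i)).map (Pi.single i) := by
    ext a b i
    rw [Matrix.sum_apply, Finset.sum_apply, Finset.sum_eq_single i]
    · simp
    · intro j _ hj
      simp only [Matrix.map_apply]
      rw [Pi.single_eq_of_ne hj.symm]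
    · simp
  rw [e1]
  refine IsPos.sum fun i _ => ?_
  exact (h i k X hX).map_hom (AddMonoidHom.single B i) (fun a b => Pi.single_mul i a b)
    (fun a => by
      simp only [AddMonoidHom.single_apply]
      rw [Pi.single_star])

/-! ### The maps `ι` and `κ` -/

/-- The compression to the span of `e_0, …, e_{D-1}`. -/
def kap (D : ℕ) : BH →ₗ[ℂ] CStarMatrix (Fin D) (Fin D) ℂ where
  toFun T := CStarMatrix.ofMatrix (Matrix.of fun i j => ⟪e i, T (e j)⟫_ℂ)
  map_add' S T := by
    ext i j
    simp
  map_smul' c T := by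
    ext i j
    simp

lemma kap_apply (D : ℕ) (T : BH) (i j : Fin D) : kap D T i j = ⟪e i, T (e j)⟫_ℂ := rfl

/-- The inclusion of the `D × D` matrices. -/
def io (D : ℕ) : CStarMatrix (Fin D) (Fin D) ℂ →⋆ₙₐ[ℂ] BH where
  toFun b := ∑ i : Fin D, ∑ j : Fin D, b i j • E i j
  map_smul' c b := by
    simp only [CStarMatrix.smul_apply, Finset.smul_sum, MonoidHom.id_apply, smul_assoc]
  map_zero' := by simp
  map_add' a b := by
    simp only [CStarMatrix.add_apply, add_smul, Finset.sum_add_distrib]
  map_mul' a b := by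
    have h1 : ∀ i j : Fin D, a i j • E i j * (∑ k : Fin D, ∑ l : Fin D, b k l • E k l)
        = ∑ l : Fin D, (a i j * b j l) • E i l := by
      intro i j
      rw [Finset.mul_sum, Finset.sum_eq_single j]
      · rw [Finset.mul_sum]
        refine Finset.sum_congr rfl fun l _ => ?_
        rw [smul_mul_smul_comm, E_mul_same]
      · intro k _ hk
        rw [Finset.mul_sum]
        refine Finset.sum_eq_zero fun l _ => ?_
        rw [smul_mul_smul_comm, E_mul, if_neg, smul_zero]
        intro h
        exact hk (Fin.ext h.symm)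
      · simp
    rw [Finset.sum_mul]
    refine Finset.sum_congr rfl fun i _ => ?_
    rw [Finset.sum_mul]
    simp only [h1]
    rw [Finset.sum_comm]
    refine Finset.sum_congr rfl fun l _ => ?_
    rw [CStarMatrix.mul_apply, Finset.sum_smul]
  map_star' b := by
    rw [star_sum, Finset.sum_comm]
    refine Finset.sum_congr rfl fun i _ => ?_
    rw [star_sum]
    refine Finset.sum_congr rfl fun j _ => ?_
    rw [star_smul, star_E, CStarMatrix.star_apply]

lemma io_apply (D : ℕ) (b : CStarMatrix (Fin D) (Fin D) ℂ) :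
    io D b = ∑ i : Fin D, ∑ j : Fin D, b i j • E i j := rfl

lemma inner_E_apply (i j a b : ℕ) : ⟪e a, E i j (e b)⟫_ℂ = if a = i ∧ j = b then 1 else 0 := by
  rw [E_apply, inner_smul_right, ← inner_e_left, inner_e, inner_e]
  by_cases h1 : a = i <;> by_cases h2 : j = b <;> simp [h1, h2]

lemma kap_io (D : ℕ) (b : CStarMatrix (Fin D) (Fin D) ℂ) : kap D (io D b) = b := by
  ext x y
  rw [kap_apply, io_apply, sum_apply, inner_sum, Finset.sum_eq_single x]
  · rw [sum_apply, inner_sum, Finset.sum_eq_single y]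
    · rw [smul_apply, inner_smul_right, inner_E_apply, if_pos ⟨rfl, rfl⟩, mul_one]
    · intro j _ hj
      rw [smul_apply, inner_smul_right, inner_E_apply, if_neg, mul_zero]
      rintro ⟨-, h⟩
      exact hj (Fin.ext h)
    · simp
  · intro i _ hi
    rw [sum_apply, inner_sum]
    refine Finset.sum_eq_zero fun j _ => ?_
    rw [smul_apply, inner_smul_right, inner_E_apply, if_neg, mul_zero]
    rintro ⟨h, -⟩
    exact hi (Fin.ext h.symm)
  · simp

lemma io_injective (D : ℕ) : Function.Injective (io D) :=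
  Function.LeftInverse.injective (kap_io D)

lemma norm_io (D : ℕ) (b : CStarMatrix (Fin D) (Fin D) ℂ) : ‖io D b‖ = ‖b‖ :=
  NonUnitalStarAlgHom.norm_map (io D) (io_injective D) b

lemma E_mul_mul_E (i j : ℕ) (T : BH) : E i i * T * E j j = ⟪e i, T (e j)⟫_ℂ • E i j := by
  rw [E, E, E, ContinuousLinearMap.mul_def, ContinuousLinearMap.mul_def,
    ContinuousLinearMap.comp_assoc, comp_rankOne, rankOne_comp_rankOne]

lemma io_kap (D : ℕ) (T : BH) : io D (kap D T) = P D * T * P D := by
  rw [io_apply, P, Finset.sum_range, Finset.sum_mul, Finset.sum_mul]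
  refine Finset.sum_congr rfl fun i _ => ?_
  rw [Finset.mul_sum]
  refine Finset.sum_congr rfl fun j _ => ?_
  rw [E_mul_mul_E, kap_apply]

lemma norm_kap_le (D : ℕ) (T : BH) : ‖kap D T‖ ≤ ‖T‖ := by
  rw [← norm_io, io_kap]
  calc ‖P D * T * P D‖ ≤ ‖P D‖ * ‖T‖ * ‖P D‖ :=
        (norm_mul_le _ _).trans (mul_le_mul_of_nonneg_right (norm_mul_le _ _) (norm_nonneg _))
    _ ≤ 1 * ‖T‖ * 1 := by
        gcongr
        · exact norm_P_le D
        · exact norm_P_le D
    _ = ‖T‖ := by ring

lemma kap_one (D : ℕ) : kap D 1 = 1 := by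
  ext i j
  rw [kap_apply, one_apply_eq_self, inner_e, CStarMatrix.one_apply]
  by_cases h : i = j
  · rw [if_pos h, if_pos (by rw [h])]
  · rw [if_neg h, if_neg]
    intro h'
    exact h (Fin.ext h')

lemma IsPos.map {A B : Type*} [NonUnitalSemiring A] [StarRing A] [NonUnitalSemiring B]
    [StarRing B] (ρ : A →+ B) (hmul : ∀ a b, ρ (a * b) = ρ a * ρ b)
    (hstar : ∀ a, ρ (star a) = star (ρ a)) {x : A} (hx : IsPos x) : IsPos (ρ x) := by
  refine AddSubmonoid.closure_induction ?_ ?_ ?_ hx
  · rintro _ ⟨y, rfl⟩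
    change IsPos (ρ (star y * y))
    rw [hmul, hstar]
    exact isPos_star_mul_self _
  · rw [map_zero]
    exact isPos_zero
  · intro a b _ _ ha hb
    rw [map_add]
    exact ha.add hb

/-- Matrices over a product index as matrices of blocks. -/
def blk (k D : ℕ) : Matrix (Fin k × Fin D) (Fin k × Fin D) ℂ →+
    Matrix (Fin k) (Fin k) (CStarMatrix (Fin D) (Fin D) ℂ) where
  toFun B := Matrix.of fun a b => CStarMatrix.ofMatrix (Matrix.of fun i j => B (a, i) (b, j))
  map_zero' := rfl
  map_add' _ _ := rfl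

lemma blk_apply (k D : ℕ) (B : Matrix (Fin k × Fin D) (Fin k × Fin D) ℂ) (a b : Fin k)
    (i j : Fin D) : blk k D B a b i j = B (a, i) (b, j) := rfl

lemma blk_mul (k D : ℕ) (B C : Matrix (Fin k × Fin D) (Fin k × Fin D) ℂ) :
    blk k D (B * C) = blk k D B * blk k D C := by
  ext a b i j
  rw [blk_apply, Matrix.mul_apply, Fintype.sum_prod_type, Matrix.mul_apply]
  have h : ∀ f : Fin k → CStarMatrix (Fin D) (Fin D) ℂ, (∑ x, f x) i j = ∑ x, f x i j := by
    intro f
    exact Matrix.sum_apply i j Finset.univ f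
  rw [h]
  rfl

lemma blk_star (k D : ℕ) (B : Matrix (Fin k × Fin D) (Fin k × Fin D) ℂ) :
    blk k D (star B) = star (blk k D B) := rfl

open scoped MatrixOrder in
lemma isPos_gram {n : Type*} [Fintype n] (v : n → H) : IsPos (Matrix.gram ℂ v) :=
  StarOrderedRing.nonneg_iff.1 (Matrix.nonneg_iff_posSemidef.2 (Matrix.posSemidef_gram ℂ v))

lemma isCP_kap (D : ℕ) : IsCP (kap D) := by
  refine isCP_of (kap D : BH →+ CStarMatrix (Fin D) (Fin D) ℂ) fun k X => ?_
  have e1 : (star X * X).map (kap D : BH →+ CStarMatrix (Fin D) (Fin D) ℂ) = ∑ l : Fin k,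
      blk k D (Matrix.gram ℂ fun p : Fin k × Fin D => X l p.1 (e p.2)) := by
    ext a b : 1
    rw [Matrix.sum_apply]
    simp only [Matrix.map_apply, Matrix.mul_apply, Matrix.star_apply, map_sum]
    refine Finset.sum_congr rfl fun l _ => ?_
    ext i j
    change ⟪e i, (star (X l a) * X l b) (e j)⟫_ℂ = ⟪X l a (e i), X l b (e j)⟫_ℂ
    rw [mul_apply_eq_comp, ContinuousLinearMap.star_eq_adjoint,
      ContinuousLinearMap.adjoint_inner_right]
  rw [e1]
  exact IsPos.sum fun l _ => IsPos.map (blk k D) (blk_mul k D) (blk_star k D) (isPos_gram _)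

/-- The map `b ↦ b_{00} g* g`. -/
lemma isCP_corner {B : Type*} [NonUnitalCStarAlgebra B] (D : ℕ) (d : Fin D) (g : B) :
    IsCP (fun b : CStarMatrix (Fin D) (Fin D) ℂ => b d d • (star g * g)) := by
  let φ : CStarMatrix (Fin D) (Fin D) ℂ →+ B :=
    { toFun := fun b => b d d • (star g * g)
      map_zero' := by simp
      map_add' := by
        intro a b
        rw [CStarMatrix.add_apply, add_smul] }
  refine isCP_of φ fun k X => ?_
  have e1 : (star X * X).map φ = ∑ a : Fin D, star (X.map fun x => x a d • g) *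
      (X.map fun x => x a d • g) := by
    ext i j
    rw [Matrix.sum_apply]
    have h : ∀ a : Fin D, (star (X.map fun x => x a d • g) * (X.map fun x => x a d • g)) i j =
        ∑ l, (star (X l i a d) * X l j a d) • (star g * g) := by
      intro a
      rw [Matrix.mul_apply]
      refine Finset.sum_congr rfl fun l _ => ?_
      rw [Matrix.star_apply, Matrix.map_apply, Matrix.map_apply, star_smul, smul_mul_smul_comm]
    simp only [h]
    rw [Matrix.map_apply, Matrix.mul_apply, map_sum, Finset.sum_comm]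
    refine Finset.sum_congr rfl fun l _ => ?_
    change (star (X l i) * X l j) d d • (star g * g) = _
    rw [CStarMatrix.mul_apply, Finset.sum_smul]
    refine Finset.sum_congr rfl fun a _ => ?_
    rw [CStarMatrix.star_apply]
  rw [e1]
  exact IsPos.sum fun a _ => isPos_star_mul_self _

end

end Ent75
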