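import Pool.Agent.Helper75.Ent.Upper1

/-!
# Overlapping windows
-/

open Filter Topology
open InnerProductSpace
open scoped ComplexOrder InnerProductSpace

set_option autoImplicit false

namespace Ent75

noncomputable section

/-! ### A norm estimate -/

lemma norm_partition_le {ι : Type*} [Fintype ι] (W B : ι → BH) (β : ℝ)
    (hB : ∀ t, ‖B t‖ ≤ β) (hβ : 0 ≤ β) (hW : ∑ t, star (W t) * W t = 1) :
    ‖∑ t, star (W t) * B t * W t‖ ≤ β := by
  have hsq : ∀ ξ : H, ∑ t, ‖W t ξ‖ ^ 2 = ‖ξ‖ ^ 2 := by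
    intro ξ
    have h1 : ⟪ξ, (∑ t, star (W t) * W t) ξ⟫_ℂ = ((∑ t, ‖W t ξ‖ ^ 2 : ℝ) : ℂ) := by
      rw [sum_apply, inner_sum, Complex.ofReal_sum]
      exact Finset.sum_congr rfl fun t _ => inner_star_mul_self _ _
    have h2 : ⟪ξ, ξ⟫_ℂ = ((‖ξ‖ ^ 2 : ℝ) : ℂ) := by
      rw [inner_self_eq_norm_sq_to_K]
      push_cast
      rfl
    rw [hW, one_apply_eq_self, h2] at h1
    exact (Complex.ofReal_injective h1).symm
  set S : BH := ∑ t, star (W t) * B t * W t with hS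
  refine ContinuousLinearMap.opNorm_le_bound _ hβ fun ξ => ?_
  have h1 : ((‖S ξ‖ ^ 2 : ℝ) : ℂ) = ∑ t, ⟪W t (S ξ), B t (W t ξ)⟫_ℂ := by
    have h2 : ((‖S ξ‖ ^ 2 : ℝ) : ℂ) = ⟪S ξ, S ξ⟫_ℂ := by
      rw [inner_self_eq_norm_sq_to_K]
      push_cast
      rfl
    rw [h2]
    nth_rewrite 2 [hS]
    rw [sum_apply, inner_sum]
    refine Finset.sum_congr rfl fun t _ => ?_
    rw [mul_apply_eq_comp, mul_apply_eq_comp, ContinuousLinearMap.star_eq_adjoint,
      ContinuousLinearMap.adjoint_inner_right]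
  have h3 : ‖S ξ‖ ^ 2 ≤ ∑ t, ‖W t (S ξ)‖ * (β * ‖W t ξ‖) := by
    have h4 : ‖S ξ‖ ^ 2 = ‖((‖S ξ‖ ^ 2 : ℝ) : ℂ)‖ := by
      rw [Complex.norm_real, Real.norm_of_nonneg (sq_nonneg _)]
    rw [h4, h1]
    refine (norm_sum_le _ _).trans (Finset.sum_le_sum fun t _ => ?_)
    refine (norm_inner_le_norm _ _).trans ?_
    refine mul_le_mul_of_nonneg_left ?_ (norm_nonneg _)
    exact (ContinuousLinearMap.le_opNorm _ _).trans
      (mul_le_mul_of_nonneg_right (hB t) (norm_nonneg _))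
  have h5 : ∑ t, ‖W t (S ξ)‖ * (β * ‖W t ξ‖) ≤ β * (‖S ξ‖ * ‖ξ‖) := by
    have h6 : ∑ t, ‖W t (S ξ)‖ * (β * ‖W t ξ‖) = β * ∑ t, ‖W t (S ξ)‖ * ‖W t ξ‖ := by
      rw [Finset.mul_sum]
      exact Finset.sum_congr rfl fun t _ => by ring
    rw [h6]
    refine mul_le_mul_of_nonneg_left ?_ hβ
    have h7 := Finset.sum_mul_sq_le_sq_mul_sq Finset.univ (fun t => ‖W t (S ξ)‖)
      (fun t => ‖W t ξ‖)
    rw [hsq, hsq, ← mul_pow] at h7
    exact le_of_sq_le_sq h7 (by positivity)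
  rcases eq_or_lt_of_le (norm_nonneg (S ξ)) with h0 | h0
  · rw [← h0]
    positivity
  · have h8 : ‖S ξ‖ * ‖S ξ‖ ≤ ‖S ξ‖ * (β * ‖ξ‖) := by
      calc ‖S ξ‖ * ‖S ξ‖ = ‖S ξ‖ ^ 2 := by ring
        _ ≤ _ := h3
        _ ≤ _ := h5
        _ = _ := by ring
    exact le_of_mul_le_mul_left h8 h0

lemma norm_le_one_of_isom {V : BH} (h : star V * V = 1) : ‖V‖ ≤ 1 := by
  have h1 := CStarRing.norm_star_mul_self (x := V)
  rw [h] at h1
  have h2 : ‖(1 : BH)‖ ≤ 1 := norm_le_one_of_proj (star_one _) (one_mul _)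
  nlinarith [norm_nonneg V]

section shift

variable {m : ℕ} (hm : 0 < m)

/-- The first isometry. -/
def s0 : BH := s ⟨0, hm⟩

lemma star_s0_pow_mul (c : ℕ) : star (s0 hm ^ c) * s0 hm ^ c = 1 := by
  induction c with
  | zero => simp
  | succ c ih =>
    rw [pow_succ', star_mul]
    calc star (s0 hm ^ c) * star (s0 hm) * (s0 hm * s0 hm ^ c)
        = star (s0 hm ^ c) * (star (s0 hm) * s0 hm) * s0 hm ^ c := by simp only [mul_assoc]
      _ = 1 := by rw [s0, star_s_mul_s_same, ← s0, mul_one, ih]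

lemma norm_s0_pow_le (c : ℕ) : ‖s0 hm ^ c‖ ≤ 1 := norm_le_one_of_isom (star_s0_pow_mul hm c)

lemma th_mul_s0 (T : BH) : th m T * s0 hm = s0 hm * T := by
  have h := congrArg star (star_s_mul_th (⟨0, hm⟩ : Fin m) (star T))
  rwa [star_mul, star_star, star_mul, star_star, star_star, ← map_star, star_star] at h

lemma iter_mul_s0_pow (c : ℕ) (T : BH) : (th m)^[c] T * s0 hm ^ c = s0 hm ^ c * T := by
  induction c with
  | zero => simp
  | succ c ih =>
    rw [Function.iterate_succ_apply', pow_succ', ← mul_assoc, th_mul_s0, mul_assoc, ih,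
      mul_assoc]

/-- The left inverse `T ↦ (s_0^*)^c T s_0^c` of `th^c`. -/
def lam (c : ℕ) (T : BH) : BH := star (s0 hm ^ c) * T * s0 hm ^ c

lemma lam_iter (c : ℕ) (T : BH) : lam hm c ((th m)^[c] T) = T := by
  rw [lam, mul_assoc, iter_mul_s0_pow, ← mul_assoc, star_s0_pow_mul, one_mul]

lemma lam_add (a b : ℕ) (T : BH) : lam hm (a + b) T = lam hm b (lam hm a T) := by
  rw [lam, lam, lam, pow_add, star_mul]
  simp only [mul_assoc]

lemma lam_one (c : ℕ) : lam hm c 1 = 1 := by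
  rw [lam, mul_one, star_s0_pow_mul]

lemma norm_lam_le (c : ℕ) (T : BH) : ‖lam hm c T‖ ≤ ‖T‖ := by
  calc ‖lam hm c T‖ ≤ ‖star (s0 hm ^ c)‖ * ‖T‖ * ‖s0 hm ^ c‖ :=
        (norm_mul_le _ _).trans (mul_le_mul_of_nonneg_right (norm_mul_le _ _) (norm_nonneg _))
    _ ≤ 1 * ‖T‖ * 1 := by
        gcongr
        · exact (norm_star (s0 hm ^ c)).le.trans (norm_s0_pow_le hm c)
        · exact norm_s0_pow_le hm c
    _ = ‖T‖ := by ring

lemma P_mul_s0_pow (q j : ℕ) (h : q ≤ j) : P (wd m q) * s0 hm ^ j = 0 := by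
  induction q generalizing j with
  | zero => simp [wd, P]
  | succ q ih =>
    obtain ⟨j, rfl⟩ : ∃ i, j = i + 1 := ⟨j - 1, by omega⟩
    rw [wd, ← th_P, pow_succ', ← mul_assoc, add_mul, s0, E_mul_s, zero_add, ← s0, th_mul_s0,
      mul_assoc, ih j (by omega), mul_zero]

lemma lam_eq_zero {X : BH} {q : ℕ} (hX : P (wd m q) * X = X) {j : ℕ} (h : q ≤ j) :
    lam hm j X = 0 := by
  have h1 : star (s0 hm ^ j) * P (wd m q) = 0 := by
    have := congrArg star (P_mul_s0_pow hm q j h)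
    rwa [star_mul, star_P, star_zero] at this
  rw [lam, ← hX, ← mul_assoc, h1, zero_mul, zero_mul]

end shift

/-! ### Windows -/

section windows

/-- The levels below `L` in the window of length `M` ending at `t`. -/
def Sw (L M t : ℕ) : Finset ℕ := (Finset.range L).filter fun l => l ≤ t ∧ t < l + M

lemma mem_Sw {L M t l : ℕ} : l ∈ Sw L M t ↔ l < L ∧ l ≤ t ∧ t < l + M := by
  rw [Sw, Finset.mem_filter, Finset.mem_range]

variable (m : ℕ)

lemma sum_Q_Sw (L M : ℕ) :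
    ∑ t ∈ Finset.range (L + M), Q m (Sw L M t) = (M : ℂ) • Q m (Finset.range L) := by
  simp only [Q, Sw, Finset.sum_filter]
  rw [Finset.sum_comm, Finset.smul_sum]
  refine Finset.sum_congr rfl fun l hl => ?_
  rw [← Finset.sum_filter, Finset.sum_const]
  have h : (Finset.range (L + M)).filter (fun t => l ≤ t ∧ t < l + M) = Finset.Ico l (l + M) := by
    ext t
    rw [Finset.mem_filter, Finset.mem_range, Finset.mem_Ico]
    rw [Finset.mem_range] at hl
    constructor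
    · rintro ⟨-, h⟩
      exact h
    · rintro h
      exact ⟨by omega, h⟩
  rw [h, Nat.card_Ico, Nat.add_sub_cancel_left, Nat.cast_smul_eq_nsmul]

lemma Q_mul_iter_P (L M t : ℕ) :
    Q m (Sw L M t) * (th m)^[t + 1 - M] (P (wd m M)) = Q m (Sw L M t) := by
  rw [P_eq_Q, th_iter_Q, Q_mul_Q]
  congr 1
  ext l
  rw [Finset.mem_inter, mem_Sw, Finset.mem_map]
  constructor
  · rintro ⟨h, -⟩
    exact h
  · intro h
    refine ⟨h, l - (t + 1 - M), ?_, ?_⟩
    · rw [Finset.mem_range]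
      omega
    · change t + 1 - M + (l - (t + 1 - M)) = l
      omega

lemma iter_P_mul_Q (L M t : ℕ) :
    (th m)^[t + 1 - M] (P (wd m M)) * Q m (Sw L M t) = Q m (Sw L M t) := by
  have h := congrArg star (Q_mul_iter_P m L M t)
  rwa [star_mul, star_Q, ← iter_apply, ← map_star, star_P, iter_apply] at h

lemma iter_mul (c : ℕ) (S T : BH) : (th m)^[c] (S * T) = (th m)^[c] S * (th m)^[c] T := by
  rw [← iter_apply, ← iter_apply, ← iter_apply, map_mul]

lemma Q_iter_Q (L M t : ℕ) (T : BH) : Q m (Sw L M t) *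
    (th m)^[t + 1 - M] (P (wd m M) * T * P (wd m M)) * Q m (Sw L M t) =
    Q m (Sw L M t) * (th m)^[t + 1 - M] T * Q m (Sw L M t) := by
  rw [iter_mul, iter_mul, ← mul_assoc, ← mul_assoc, Q_mul_iter_P, mul_assoc _ _ (Q m _),
    iter_P_mul_Q]

/-- The supports of `th^k X`. -/
lemma Q_mul_iter_eq_zero {L M t k q : ℕ} {X : BH} (hX : P (wd m q) * X = X)
    (h : ∀ l ∈ Sw L M t, l < k ∨ k + q ≤ l) : Q m (Sw L M t) * (th m)^[k] X = 0 := by
  rw [← hX, iter_mul, ← mul_assoc, P_eq_Q, th_iter_Q, Q_mul_Q]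
  have h1 : Sw L M t ∩ (Finset.range q).map (addLeftEmbedding k) = ∅ := by
    rw [Finset.eq_empty_iff_forall_notMem]
    intro l hl
    rw [Finset.mem_inter, Finset.mem_map] at hl
    obtain ⟨h2, j, hj, rfl⟩ := hl
    rw [Finset.mem_range] at hj
    have h3 := h _ h2
    change k + j < k ∨ k + q ≤ k + j at h3
    omega
  rw [h1]
  simp [Q]

lemma iter_mul_Q_eq {L M t k q : ℕ} {X : BH} (hX : X * P (wd m q) = X)
    (h : ∀ l, k ≤ l → l < k + q → l ∈ Sw L M t) :
    (th m)^[k] X * Q m (Sw L M t) = (th m)^[k] X := by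
  rw [← hX, iter_mul, mul_assoc, P_eq_Q, th_iter_Q, Q_mul_Q]
  congr 2
  ext l
  rw [Finset.mem_inter, Finset.mem_map]
  constructor
  · rintro ⟨h1, -⟩
    exact h1
  · rintro ⟨j, hj, rfl⟩
    refine ⟨⟨j, hj, rfl⟩, ?_⟩
    rw [Finset.mem_range] at hj
    exact h _ (Nat.le_add_right k j) (by change k + j < k + q; omega)

variable {m} (hm : 0 < m)

/-- The compression followed by the reconstruction. -/
def Phi (L M : ℕ) (T : BH) : BH :=
  ∑ t ∈ Finset.range (L + M), (M : ℂ)⁻¹ • (Q m (Sw L M t) *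
    (th m)^[t + 1 - M] (P (wd m M) * lam hm (t + 1 - M) T * P (wd m M)) * Q m (Sw L M t))

lemma Phi_eq (L M : ℕ) (T : BH) : Phi hm L M T =
    ∑ t ∈ Finset.range (L + M), (M : ℂ)⁻¹ • (Q m (Sw L M t) *
    (th m)^[t + 1 - M] (lam hm (t + 1 - M) T) * Q m (Sw L M t)) := by
  rw [Phi]
  refine Finset.sum_congr rfl fun t _ => ?_
  rw [Q_iter_Q]

lemma Phi_est {L M k q : ℕ} (hM : 0 < M) (hL : k + q ≤ L) {X : BH} (hX : P (wd m q) * X = X)
    (hX' : X * P (wd m q) = X) :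
    ‖Phi hm L M ((th m)^[k] X) - (th m)^[k] X‖ ≤ 4 * q * ‖X‖ / M := by
  set Y := (th m)^[k] X with hY
  have hMC : (M : ℂ) ≠ 0 := Nat.cast_ne_zero.2 hM.ne'
  have hYs : Y = ∑ t ∈ Finset.range (L + M), (M : ℂ)⁻¹ • (Q m (Sw L M t) * Y) := by
    rw [← Finset.smul_sum, ← Finset.sum_mul, sum_Q_Sw, smul_mul_assoc, smul_smul,
      inv_mul_cancel₀ hMC, one_smul, hY]
    nth_rewrite 2 [← hX]
    rw [iter_mul, ← mul_assoc, P_eq_Q, th_iter_Q, Q_mul_Q]
    have h1 : Finset.range L ∩ (Finset.range q).map (addLeftEmbedding k) =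
        (Finset.range q).map (addLeftEmbedding k) := by
      ext l
      rw [Finset.mem_inter, Finset.mem_map]
      constructor
      · rintro ⟨-, h⟩
        exact h
      · rintro ⟨j, hj, rfl⟩
        refine ⟨?_, j, hj, rfl⟩
        rw [Finset.mem_range] at hj ⊢
        change k + j < L
        omega
    rw [h1, ← th_iter_Q, ← P_eq_Q, ← iter_mul, hX]
  have hd : Phi hm L M Y - Y = ∑ t ∈ Finset.range (L + M), (M : ℂ)⁻¹ •
      (Q m (Sw L M t) * (th m)^[t + 1 - M] (lam hm (t + 1 - M) Y) * Q m (Sw L M t)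
        - Q m (Sw L M t) * Y) := by
    nth_rewrite 2 [hYs]
    rw [Phi_eq, ← Finset.sum_sub_distrib]
    simp only [smul_sub]
  have hsmall : ∀ t, t + 1 - M ≤ k →
      (th m)^[t + 1 - M] (lam hm (t + 1 - M) Y) = Y := by
    intro t ht
    obtain ⟨j, hj⟩ : ∃ j, k = (t + 1 - M) + j := ⟨k - (t + 1 - M), by omega⟩
    have h1 : Y = (th m)^[t + 1 - M] ((th m)^[j] X) := by
      rw [hY, ← Function.iterate_add_apply, ← hj]
    rw [h1, lam_iter]
  have hzero : ∀ t ∈ Finset.range (L + M),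
      t ∉ Finset.Ico k (k + q) ∪ Finset.Ico (k + M) (k + M + q) → (M : ℂ)⁻¹ •
      (Q m (Sw L M t) * (th m)^[t + 1 - M] (lam hm (t + 1 - M) Y) * Q m (Sw L M t)
        - Q m (Sw L M t) * Y) = 0 := by
    intro t _ ht
    rw [Finset.mem_union, Finset.mem_Ico, Finset.mem_Ico] at ht
    push Not at ht
    obtain ⟨ht1, ht2⟩ := ht
    rcases Nat.lt_or_ge t k with h1 | h1
    · -- early windows
      have h2 : Q m (Sw L M t) * Y = 0 := by
        apply Q_mul_iter_eq_zero m hX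
        intro l hl
        rw [mem_Sw] at hl
        omega
      rw [hsmall t (by omega), h2, zero_mul, sub_zero, smul_zero]
    · have h3 := ht1 h1
      rcases Nat.lt_or_ge t (k + M) with h4 | h4
      · -- windows containing the support
        have h2 : Y * Q m (Sw L M t) = Y := by
          apply iter_mul_Q_eq m hX'
          intro l hl hl'
          rw [mem_Sw]
          omega
        rw [hsmall t (by omega), mul_assoc, h2, sub_self, smul_zero]
      · -- late windows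
        have h5 := ht2 h4
        have h2 : Q m (Sw L M t) * Y = 0 := by
          apply Q_mul_iter_eq_zero m hX
          intro l hl
          rw [mem_Sw] at hl
          omega
        obtain ⟨j, hj⟩ : ∃ j, t + 1 - M = k + j := ⟨t + 1 - M - k, by omega⟩
        have h6 : lam hm (t + 1 - M) Y = 0 := by
          rw [hj, lam_add, hY, lam_iter]
          exact lam_eq_zero hm hX (by omega)
        rw [h6, h2, ← iter_apply, map_zero, mul_zero, zero_mul, sub_zero, smul_zero]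
  have hnorm : ∀ t, ‖(M : ℂ)⁻¹ • (Q m (Sw L M t) *
      (th m)^[t + 1 - M] (lam hm (t + 1 - M) Y) * Q m (Sw L M t)
        - Q m (Sw L M t) * Y)‖ ≤ 2 * ‖X‖ / M := by
    intro t
    have hYX : ‖Y‖ ≤ ‖X‖ := norm_th_iterate_le k X
    have h1 : ‖(th m)^[t + 1 - M] (lam hm (t + 1 - M) Y)‖ ≤ ‖X‖ :=
      (norm_th_iterate_le _ _).trans ((norm_lam_le hm _ _).trans hYX)
    have h2 : ‖Q m (Sw L M t) * (th m)^[t + 1 - M] (lam hm (t + 1 - M) Y) * Q m (Sw L M t)‖
        ≤ ‖X‖ := by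
      calc _ ≤ ‖Q m (Sw L M t)‖ * ‖(th m)^[t + 1 - M] (lam hm (t + 1 - M) Y)‖ *
            ‖Q m (Sw L M t)‖ :=
            (norm_mul_le _ _).trans (mul_le_mul_of_nonneg_right (norm_mul_le _ _) (norm_nonneg _))
        _ ≤ 1 * ‖X‖ * 1 := by
            gcongr
            · exact norm_Q_le m _
            · exact norm_Q_le m _
        _ = ‖X‖ := by ring
    have h3 : ‖Q m (Sw L M t) * Y‖ ≤ ‖X‖ := by
      calc _ ≤ ‖Q m (Sw L M t)‖ * ‖Y‖ := norm_mul_le _ _
        _ ≤ 1 * ‖X‖ := by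
            gcongr
            exact norm_Q_le m _
        _ = ‖X‖ := by ring
    rw [norm_smul, norm_inv, Complex.norm_natCast, inv_mul_eq_div]
    gcongr
    exact (norm_sub_le _ _).trans (by linarith)
  rw [hd]
  have hsub : ∑ t ∈ Finset.range (L + M), (M : ℂ)⁻¹ •
      (Q m (Sw L M t) * (th m)^[t + 1 - M] (lam hm (t + 1 - M) Y) * Q m (Sw L M t)
        - Q m (Sw L M t) * Y) = ∑ t ∈ (Finset.range (L + M)).filter
        (fun t => t ∈ Finset.Ico k (k + q) ∪ Finset.Ico (k + M) (k + M + q)), (M : ℂ)⁻¹ •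
      (Q m (Sw L M t) * (th m)^[t + 1 - M] (lam hm (t + 1 - M) Y) * Q m (Sw L M t)
        - Q m (Sw L M t) * Y) := by
    rw [Finset.sum_filter]
    refine Finset.sum_congr rfl fun t ht => ?_
    split_ifs with h
    · rfl
    · exact hzero t ht h
  rw [hsub]
  refine (norm_sum_le_of_le _ fun t _ => hnorm t).trans ?_
  rw [Finset.sum_const, nsmul_eq_mul]
  have hcard : ((Finset.range (L + M)).filter
        (fun t => t ∈ Finset.Ico k (k + q) ∪ Finset.Ico (k + M) (k + M + q))).card ≤ 2 * q := by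
    refine (Finset.card_le_card (t := Finset.Ico k (k + q) ∪ Finset.Ico (k + M) (k + M + q))
      ?_).trans ?_
    · intro t ht
      exact (Finset.mem_filter.1 ht).2
    · refine (Finset.card_union_le _ _).trans ?_
      rw [Nat.card_Ico, Nat.card_Ico]
      omega
  calc _ ≤ ((2 * q : ℕ) : ℝ) * (2 * ‖X‖ / M) := by
        gcongr
    _ = 4 * q * ‖X‖ / M := by
        push_cast
        ring

end windows

end

end Ent75
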