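import Pool.Agent.Helper75.Ent.Upper2
import Pool.Agent.Helper75.Ent.Bridge

/-!
# The approximating systems for `ht`
-/

open Filter Topology
open InnerProductSpace
open scoped ComplexOrder InnerProductSpace

set_option autoImplicit false

namespace Ent75

noncomputable section

variable {m : ℕ}

/-! ### Compactness of the operators in use -/

lemma isK_io (D : ℕ) (b : CStarMatrix (Fin D) (Fin D) ℂ) : IsK (io D b) := by
  rw [io_apply]
  exact IsK.sum fun i _ => IsK.sum fun j _ => (isK_E _ _).smul _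

lemma IsK.iterTh {T : BH} (h : IsK T) (c : ℕ) : IsK (iter (Ent75.th m) c T) := by
  induction c with
  | zero => exact h
  | succ c ih => exact ih.th

lemma isK_R (l : ℕ) : IsK (R m l) := by
  rw [R, ← iter_apply]
  exact (isK_E 0 0).iterTh l

lemma isK_Q (S : Finset ℕ) : IsK (Q m S) := IsK.sum fun _ _ => isK_R _

/-! ### Coordinates -/

/-- The first coordinate. -/
def pr1 : AAlg →⋆ₙₐ[ℂ] BH where
  toFun x := x.1.1
  map_smul' _ _ := rfl
  map_zero' := rfl
  map_add' _ _ := rfl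
  map_mul' _ _ := rfl
  map_star' _ := rfl

/-- The second coordinate. -/
def pr2 : AAlg →⋆ₙₐ[ℂ] ℂ where
  toFun x := x.1.2
  map_smul' _ _ := rfl
  map_zero' := rfl
  map_add' _ _ := rfl
  map_mul' _ _ := rfl
  map_star' _ := rfl

lemma norm_AA (x : AAlg) : ‖x‖ = max ‖pr1 x‖ ‖pr2 x‖ := rfl

lemma norm_pr1_le (x : AAlg) : ‖pr1 x‖ ≤ ‖x‖ := by
  rw [norm_AA]
  exact le_max_left _ _

lemma norm_pr2_le (x : AAlg) : ‖pr2 x‖ ≤ ‖x‖ := by
  rw [norm_AA]
  exact le_max_right _ _

lemma AA_ext {x y : AAlg} (h1 : pr1 x = pr1 y) (h2 : pr2 x = pr2 y) : x = y :=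
  Subtype.ext (Prod.ext h1 h2)

/-- A compact operator as an element of the algebra. -/
def kk (T : BH) (h : IsK T) : AAlg := ⟨(T, 0), by
  rw [mem_AA]
  simpa using h⟩

/-- The element `1 - P D`. -/
def om (D : ℕ) : AAlg := ⟨(1 - P D, 1), by
  rw [mem_AA]
  have h := (isK_P D).smul (-1)
  simpa using h⟩

lemma pr1_kk (T : BH) (h : IsK T) : pr1 (kk T h) = T := rfl
lemma pr2_kk (T : BH) (h : IsK T) : pr2 (kk T h) = 0 := rfl
lemma pr1_om (D : ℕ) : pr1 (om D) = 1 - P D := rfl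
lemma pr2_om (D : ℕ) : pr2 (om D) = 1 := rfl

lemma star_one_sub_P (D : ℕ) : star (1 - P D) = 1 - P D := by
  rw [star_sub, star_one, star_P]

lemma one_sub_P_mul (D : ℕ) : (1 - P D) * (1 - P D) = 1 - P D := by
  rw [mul_sub, sub_mul, sub_mul, P_mul_P le_rfl]
  simp

lemma om_mul (D : ℕ) : star (om D) * om D = om D := by
  apply AA_ext
  · rw [map_mul, map_star, pr1_om, star_one_sub_P, one_sub_P_mul]
  · rw [map_mul, map_star, pr2_om, star_one, one_mul]

/-- The inclusion of the matrices followed by the iterates of the endomorphism. -/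
def inc (m D c : ℕ) : CStarMatrix (Fin D) (Fin D) ℂ →⋆ₙₐ[ℂ] AAlg where
  toFun b := kk (iter (th m) c (io D b)) ((isK_io D b).iterTh c)
  map_smul' z b := by
    apply AA_ext
    · rw [pr1_kk, map_smul, map_smul]
      rfl
    · simp [pr2_kk]
  map_zero' := by
    apply AA_ext
    · rw [pr1_kk, map_zero, map_zero, map_zero]
    · rw [pr2_kk, map_zero]
  map_add' a b := by
    apply AA_ext
    · rw [pr1_kk, map_add, map_add, map_add, pr1_kk, pr1_kk]
    · rw [pr2_kk, map_add, pr2_kk, pr2_kk, add_zero]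
  map_mul' a b := by
    apply AA_ext
    · rw [pr1_kk, map_mul, map_mul, map_mul, pr1_kk, pr1_kk]
    · rw [pr2_kk, map_mul, pr2_kk, pr2_kk, mul_zero]
  map_star' b := by
    apply AA_ext
    · rw [pr1_kk, map_star, map_star, map_star, pr1_kk]
    · rw [pr2_kk, map_star, pr2_kk, star_zero]

lemma pr1_inc (D c : ℕ) (b : CStarMatrix (Fin D) (Fin D) ℂ) :
    pr1 (inc m D c b) = (th m)^[c] (io D b) := iter_apply _ _ _

lemma pr2_inc (D c : ℕ) (b : CStarMatrix (Fin D) (Fin D) ℂ) : pr2 (inc m D c b) = 0 := rfl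

/-- The square root of the weights. -/
def wt (M : ℕ) : ℂ := ((Real.sqrt M)⁻¹ : ℝ)

lemma wt_mul (M : ℕ) : star (wt M) * wt M = (M : ℂ)⁻¹ := by
  rw [wt, Complex.star_def, Complex.conj_ofReal, ← Complex.ofReal_mul, ← mul_inv,
    Real.mul_self_sqrt (Nat.cast_nonneg M)]
  push_cast
  rfl

/-- The weighted windows. -/
def vt (m L M t : ℕ) : AAlg := kk (wt M • Q m (Sw L M t)) ((isK_Q _).smul _)

lemma vt_conj (L M t : ℕ) (a : AAlg) : pr1 (star (vt m L M t) * a * vt m L M t) =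
    (M : ℂ)⁻¹ • (Q m (Sw L M t) * pr1 a * Q m (Sw L M t)) := by
  rw [map_mul, map_mul, map_star, vt, pr1_kk, star_smul, star_Q, smul_mul_assoc,
    smul_mul_smul_comm, wt_mul]

lemma vt_conj2 (L M t : ℕ) (a : AAlg) : pr2 (star (vt m L M t) * a * vt m L M t) = 0 := by
  rw [map_mul, vt, pr2_kk, mul_zero]

/-! ### The norm of the systems -/

lemma norm_sys_le {L M : ℕ} (hM : 0 < M) (B : ℕ → BH) (z : ℂ) (β : ℝ) (hz : ‖z‖ ≤ β)
    (hB : ∀ t, ‖B t‖ ≤ β) :
    ‖∑ t ∈ Finset.range (L + M), (M : ℂ)⁻¹ • (Q m (Sw L M t) * B t * Q m (Sw L M t))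
      + z • (1 - P (wd m L))‖ ≤ β := by
  have hMC : (M : ℂ) ≠ 0 := Nat.cast_ne_zero.2 hM.ne'
  have h := norm_partition_le (ι := Option (Fin (L + M)))
    (fun o => o.elim (1 - P (wd m L)) fun t => wt M • Q m (Sw L M t))
    (fun o => o.elim (z • 1) fun t => B t) β (by
      intro o
      cases o with
      | none =>
        change ‖z • (1 : BH)‖ ≤ β
        rw [norm_smul]
        have h1 : ‖(1 : BH)‖ ≤ 1 := norm_le_one_of_proj (star_one _) (one_mul _)
        calc ‖z‖ * ‖(1 : BH)‖ ≤ ‖z‖ * 1 := by gcongr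
          _ ≤ β := by rwa [mul_one]
      | some t => exact hB t) ((norm_nonneg z).trans hz) (by
      rw [Fintype.sum_option]
      change star (1 - P (wd m L)) * (1 - P (wd m L)) + ∑ t : Fin (L + M),
        star (wt M • Q m (Sw L M t)) * (wt M • Q m (Sw L M t)) = 1
      have h1 : ∀ t : Fin (L + M), star (wt M • Q m (Sw L M t)) * (wt M • Q m (Sw L M t)) =
          (M : ℂ)⁻¹ • Q m (Sw L M t) := by
        intro t
        rw [star_smul, star_Q, smul_mul_smul_comm, wt_mul, Q_mul_Q, Finset.inter_self]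
      simp only [h1]
      rw [star_one_sub_P, one_sub_P_mul, ← Finset.smul_sum,
        ← Finset.sum_range (f := fun t => Q m (Sw L M t)), sum_Q_Sw, smul_smul,
        inv_mul_cancel₀ hMC, one_smul, ← P_eq_Q]
      abel)
  rw [Fintype.sum_option] at h
  refine le_trans (le_of_eq ?_) h
  congr 1
  change _ = star (1 - P (wd m L)) * (z • 1) * (1 - P (wd m L)) + ∑ t : Fin (L + M),
        star (wt M • Q m (Sw L M t)) * B t * (wt M • Q m (Sw L M t))
  rw [add_comm, Finset.sum_range]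
  congr 1
  · rw [star_one_sub_P, mul_smul_comm, mul_one, smul_mul_assoc, one_sub_P_mul]
  · refine Finset.sum_congr rfl fun t _ => ?_
    rw [star_smul, star_Q, smul_mul_assoc, smul_mul_smul_comm, wt_mul]

section

variable (hm : 0 < m)

lemma lam_add' (c : ℕ) (S T : BH) : lam hm c (S + T) = lam hm c S + lam hm c T := by
  rw [lam, lam, lam, mul_add, add_mul]

lemma lam_smul (c : ℕ) (z : ℂ) (T : BH) : lam hm c (z • T) = z • lam hm c T := by
  rw [lam, lam, mul_smul_comm, smul_mul_assoc]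

lemma Phi_add (L M : ℕ) (S T : BH) : Phi hm L M (S + T) = Phi hm L M S + Phi hm L M T := by
  rw [Phi, Phi, Phi, ← Finset.sum_add_distrib]
  refine Finset.sum_congr rfl fun t _ => ?_
  rw [lam_add', mul_add, add_mul, ← iter_apply, map_add, mul_add, add_mul, smul_add, iter_apply,
    iter_apply]

lemma Phi_smul (L M : ℕ) (z : ℂ) (T : BH) : Phi hm L M (z • T) = z • Phi hm L M T := by
  rw [Phi, Phi, Finset.smul_sum]
  refine Finset.sum_congr rfl fun t _ => ?_
  rw [lam_smul, mul_smul_comm, smul_mul_assoc, ← iter_apply, map_smul, mul_smul_comm,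
    smul_mul_assoc, iter_apply, smul_comm]

lemma Phi_one {L M : ℕ} (hM : 0 < M) : Phi hm L M 1 = P (wd m L) := by
  have hMC : (M : ℂ) ≠ 0 := Nat.cast_ne_zero.2 hM.ne'
  rw [Phi]
  have h : ∀ t ∈ Finset.range (L + M), (M : ℂ)⁻¹ • (Q m (Sw L M t) * (th m)^[t + 1 - M]
      (P (wd m M) * lam hm (t + 1 - M) 1 * P (wd m M)) * Q m (Sw L M t)) =
      (M : ℂ)⁻¹ • Q m (Sw L M t) := by
    intro t _
    rw [lam_one, mul_one, P_mul_P le_rfl, Q_mul_iter_P, Q_mul_Q, Finset.inter_self]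
  rw [Finset.sum_congr rfl h, ← Finset.smul_sum, sum_Q_Sw, smul_smul, inv_mul_cancel₀ hMC,
    one_smul, ← P_eq_Q]

lemma norm_Phi_le {L M : ℕ} (hM : 0 < M) (T : BH) : ‖Phi hm L M T‖ ≤ ‖T‖ := by
  have h := norm_sys_le (m := m) (L := L) hM (fun t => (th m)^[t + 1 - M]
    (P (wd m M) * lam hm (t + 1 - M) T * P (wd m M))) 0 ‖T‖ (by simp) (by
    intro t
    refine (norm_th_iterate_le _ _).trans ?_
    calc _ ≤ ‖P (wd m M)‖ * ‖lam hm (t + 1 - M) T‖ * ‖P (wd m M)‖ :=
          (norm_mul_le _ _).trans (mul_le_mul_of_nonneg_right (norm_mul_le _ _) (norm_nonneg _))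
      _ ≤ 1 * ‖T‖ * 1 := by
          gcongr
          · exact norm_P_le _
          · exact norm_lam_le hm _ _
          · exact norm_P_le _
      _ = ‖T‖ := by ring)
  rwa [zero_smul, add_zero] at h

lemma Phi_est' {L M k q : ℕ} (hM : 0 < M) (hL : k + q ≤ L) (T : BH) :
    ‖Phi hm L M ((th m)^[k] T) - (th m)^[k] T‖ ≤
      2 * ‖P (wd m q) * T * P (wd m q) - T‖ + 4 * q * ‖T‖ / M := by
  set X := P (wd m q) * T * P (wd m q) with hX
  have hX1 : P (wd m q) * X = X := by
    rw [hX, ← mul_assoc, ← mul_assoc, P_mul_P le_rfl]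
  have hX2 : X * P (wd m q) = X := by
    rw [hX, mul_assoc, P_mul_P le_rfl]
  have hXT : ‖X‖ ≤ ‖T‖ := by
    calc ‖X‖ ≤ ‖P (wd m q)‖ * ‖T‖ * ‖P (wd m q)‖ :=
          (norm_mul_le _ _).trans (mul_le_mul_of_nonneg_right (norm_mul_le _ _) (norm_nonneg _))
      _ ≤ 1 * ‖T‖ * 1 := by
          gcongr
          · exact norm_P_le _
          · exact norm_P_le _
      _ = ‖T‖ := by ring
  have h1 := Phi_est hm hM hL hX1 hX2
  have h2 : T = X + (T - X) := by abel
  have h3 : (th m)^[k] T = (th m)^[k] X + (th m)^[k] (T - X) := by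
    nth_rewrite 1 [h2]
    rw [← iter_apply, map_add, iter_apply, iter_apply]
  rw [h3, Phi_add]
  have h4 : ‖Phi hm L M ((th m)^[k] (T - X))‖ ≤ ‖X - T‖ := by
    refine (norm_Phi_le hm hM _).trans ((norm_th_iterate_le _ _).trans ?_)
    rw [norm_sub_rev]
  have h5 : ‖(th m)^[k] (T - X)‖ ≤ ‖X - T‖ := by
    refine (norm_th_iterate_le _ _).trans ?_
    rw [norm_sub_rev]
  have h6 : 4 * q * ‖X‖ / M ≤ 4 * q * ‖T‖ / M := by gcongr
  have e1 : Phi hm L M ((th m)^[k] X) + Phi hm L M ((th m)^[k] (T - X)) -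
      ((th m)^[k] X + (th m)^[k] (T - X)) = (Phi hm L M ((th m)^[k] X) - (th m)^[k] X) +
      (Phi hm L M ((th m)^[k] (T - X)) - (th m)^[k] (T - X)) := by abel
  rw [e1]
  refine (norm_add_le _ _).trans ?_
  have h7 := norm_sub_le (Phi hm L M ((th m)^[k] (T - X))) ((th m)^[k] (T - X))
  linarith

/-! ### The system -/

/-- Coordinates of the compression. -/
def psi1 (D c : ℕ) : AAlg →ₗ[ℂ] CStarMatrix (Fin D) (Fin D) ℂ where
  toFun x := kap D (lam hm c (pr1 x))
  map_add' x y := by rw [map_add, lam_add', map_add]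
  map_smul' z x := by
    rw [map_smul, lam_smul, map_smul]
    rfl

/-- The last coordinate of the compression. -/
def psi2 (D : ℕ) : AAlg →ₗ[ℂ] CStarMatrix (Fin D) (Fin D) ℂ where
  toFun x := pr2 x • 1
  map_add' x y := by rw [map_add, add_smul]
  map_smul' z x := by
    rw [map_smul, smul_assoc]
    rfl

/-- The compression. -/
def psiL (D L M : ℕ) : AAlg →ₗ[ℂ] (FinDim.mk (L + M + 1) fun _ => D).PAlg :=
  LinearMap.pi fun j : Fin (L + M + 1) => if (j : ℕ) < L + M then psi1 hm D (j + 1 - M) else psi2 D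

lemma psiL_castSucc (D L M : ℕ) (x : AAlg) (t : Fin (L + M)) :
    psiL hm D L M x t.castSucc = kap D (lam hm (t + 1 - M) (pr1 x)) := by
  rw [psiL, LinearMap.pi_apply]
  change (if (t : ℕ) < L + M then psi1 hm D (t + 1 - M) else psi2 D) x = _
  rw [if_pos t.2]
  rfl

lemma psiL_last (D L M : ℕ) (x : AAlg) :
    psiL hm D L M x (Fin.last (L + M)) = pr2 x • 1 := by
  rw [psiL, LinearMap.pi_apply]
  change (if L + M < L + M then psi1 hm D (L + M + 1 - M) else psi2 D) x = _
  rw [if_neg (lt_irrefl _)]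
  rfl

lemma isCP_psi1 (D c : ℕ) : IsCP (psi1 hm D c) :=
  (isCP_kap D).comp ((isCP_ad (s0 hm ^ c)).comp (isCP_starHom pr1))

lemma isCP_psi2 (D : ℕ) : IsCP (psi2 D) := by
  let ρ : ℂ →+ CStarMatrix (Fin D) (Fin D) ℂ :=
    { toFun := fun z => z • 1
      map_zero' := by simp
      map_add' := fun a b => add_smul a b _ }
  have h : IsCP ρ := isCP_hom ρ (fun a b => by
      change (a * b) • (1 : CStarMatrix (Fin D) (Fin D) ℂ) = a • 1 * b • 1
      rw [smul_mul_smul_comm, one_mul]) (fun a => by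
      change star a • (1 : CStarMatrix (Fin D) (Fin D) ℂ) = star (a • 1)
      rw [star_smul, star_one])
  exact h.comp (isCP_starHom pr2)

lemma isCP_psiL (D L M : ℕ) : IsCP (psiL hm D L M) := by
  refine isCP_pi fun j => ?_
  change IsCP (fun x => (if (j : ℕ) < L + M then psi1 hm D (j + 1 - M) else psi2 D) x)
  split_ifs
  · exact isCP_psi1 hm D _
  · exact isCP_psi2 D

lemma norm_one_block_le (D : ℕ) : ‖(1 : CStarMatrix (Fin D) (Fin D) ℂ)‖ ≤ 1 := by
  rw [← kap_one]
  exact (norm_kap_le D 1).trans (norm_le_one_of_proj (star_one _) (one_mul _))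

lemma contr_psiL (D L M : ℕ) : IsContractive (psiL hm D L M) := by
  intro x
  rw [pi_norm_le_iff_of_nonneg (norm_nonneg x)]
  intro j
  change ‖(if (j : ℕ) < L + M then psi1 hm D (j + 1 - M) else psi2 D) x‖ ≤ ‖x‖
  split_ifs
  · exact (norm_kap_le D _).trans ((norm_lam_le hm _ _).trans (norm_pr1_le x))
  · change ‖pr2 x • (1 : CStarMatrix (Fin D) (Fin D) ℂ)‖ ≤ ‖x‖
    rw [norm_smul]
    calc _ ≤ ‖pr2 x‖ * 1 := by
          gcongr
          exact norm_one_block_le D
      _ ≤ ‖x‖ := by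
          rw [mul_one]
          exact norm_pr2_le x

/-- The reconstruction. -/
def phiL (m D : ℕ) (d : Fin D) (L M : ℕ) :
    (FinDim.mk (L + M + 1) fun _ => D).PAlg →ₗ[ℂ] AAlg where
  toFun b := (∑ t : Fin (L + M), star (vt m L M t) * inc m D (t + 1 - M) (b t.castSucc) *
    vt m L M t) + (b (Fin.last (L + M))) d d • (star (om (wd m L)) * om (wd m L))
  map_add' a b := by
    simp only [Pi.add_apply, map_add, mul_add, add_mul, Finset.sum_add_distrib,
      CStarMatrix.add_apply, add_smul]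
    abel
  map_smul' z b := by
    simp only [Pi.smul_apply, map_smul, mul_smul_comm, smul_mul_assoc, Finset.smul_sum,
      CStarMatrix.smul_apply, smul_assoc, RingHom.id_apply, smul_add]

lemma isCP_eval {F : FinDim} (j : Fin F.m) : IsCP (fun b : F.PAlg => b j) := by
  let ρ : F.PAlg →+ CStarMatrix (Fin (F.n j)) (Fin (F.n j)) ℂ :=
    { toFun := fun b => b j
      map_zero' := rfl
      map_add' := fun _ _ => rfl }
  exact isCP_hom ρ (fun _ _ => rfl) (fun _ => rfl)

lemma isCP_phiL (D : ℕ) (d : Fin D) (L M : ℕ) : IsCP (phiL m D d L M) := by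
  refine IsCP.add (IsCP.sum fun t _ => ?_) ?_
  · exact (isCP_ad (vt m L M t)).comp ((isCP_starHom (inc m D (t + 1 - M))).comp
      (isCP_eval (F := FinDim.mk (L + M + 1) fun _ => D) t.castSucc))
  · exact (isCP_corner D d (om (wd m L))).comp
      (isCP_eval (F := FinDim.mk (L + M + 1) fun _ => D) (Fin.last (L + M)))

lemma pr1_phiL (D : ℕ) (d : Fin D) (L M : ℕ) (b : (FinDim.mk (L + M + 1) fun _ => D).PAlg) :
    pr1 (phiL m D d L M b) = ∑ t : Fin (L + M), (M : ℂ)⁻¹ • (Q m (Sw L M t) *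
      (th m)^[t + 1 - M] (io D (b t.castSucc)) * Q m (Sw L M t)) +
      (b (Fin.last (L + M))) d d • (1 - P (wd m L)) := by
  change pr1 ((∑ t : Fin (L + M), star (vt m L M t) * inc m D (t + 1 - M) (b t.castSucc) *
    vt m L M t) + (b (Fin.last (L + M))) d d • (star (om (wd m L)) * om (wd m L))) = _
  rw [map_add, map_sum, om_mul, map_smul, pr1_om]
  congr 1
  refine Finset.sum_congr rfl fun t _ => ?_
  rw [vt_conj, pr1_inc]

lemma pr2_phiL (D : ℕ) (d : Fin D) (L M : ℕ) (b : (FinDim.mk (L + M + 1) fun _ => D).PAlg) :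
    pr2 (phiL m D d L M b) = (b (Fin.last (L + M))) d d := by
  change pr2 ((∑ t : Fin (L + M), star (vt m L M t) * inc m D (t + 1 - M) (b t.castSucc) *
    vt m L M t) + (b (Fin.last (L + M))) d d • (star (om (wd m L)) * om (wd m L))) = _
  rw [map_add, map_sum, om_mul, map_smul, pr2_om]
  simp only [vt_conj2]
  simp

lemma contr_phiL (D : ℕ) (d : Fin D) {L M : ℕ} (hM : 0 < M) :
    IsContractive (phiL m D d L M) := by
  intro b
  have hlast : ‖(b (Fin.last (L + M))) d d‖ ≤ ‖b‖ :=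
    CStarMatrix.norm_entry_le_norm.trans (norm_le_pi_norm b (Fin.last (L + M)))
  rw [norm_AA, max_le_iff]
  refine ⟨?_, ?_⟩
  · rw [pr1_phiL]
    have h := norm_sys_le (m := m) (L := L) hM (fun t => if h : t < L + M then
      (th m)^[t + 1 - M] (io D (b (Fin.castSucc ⟨t, h⟩))) else 0)
      ((b (Fin.last (L + M))) d d) ‖b‖ hlast (by
      intro t
      split_ifs with ht
      · refine (norm_th_iterate_le _ _).trans ?_
        rw [norm_io]
        exact norm_le_pi_norm b _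
      · rw [norm_zero]
        exact norm_nonneg b)
    rw [Finset.sum_range] at h
    refine le_trans (le_of_eq ?_) h
    congr 2
    refine Finset.sum_congr rfl fun t _ => ?_
    rw [dif_pos t.2]
  · rw [pr2_phiL]
    exact hlast

lemma pr1_phi_psi {L M : ℕ} (d : Fin (wd m M)) (x : AAlg) :
    pr1 (phiL m (wd m M) d L M (psiL hm (wd m M) L M x)) =
      Phi hm L M (pr1 x) + pr2 x • (1 - P (wd m L)) := by
  rw [pr1_phiL, psiL_last, Phi, Finset.sum_range]
  congr 1
  · refine Finset.sum_congr rfl fun t _ => ?_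
    rw [psiL_castSucc, io_kap]
  · rw [CStarMatrix.smul_apply, CStarMatrix.one_apply, if_pos rfl, smul_eq_mul, mul_one]

lemma pr2_phi_psi {L M : ℕ} (d : Fin (wd m M)) (x : AAlg) :
    pr2 (phiL m (wd m M) d L M (psiL hm (wd m M) L M x)) = pr2 x := by
  rw [pr2_phiL, psiL_last, CStarMatrix.smul_apply, CStarMatrix.one_apply, if_pos rfl,
    smul_eq_mul, mul_one]

lemma pr1_al (x : AAlg) : pr1 (al m x) = th m (pr1 x - pr2 x • 1) + pr2 x • 1 := rfl

lemma pr2_al (x : AAlg) : pr2 (al m x) = pr2 x := rfl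

lemma pr2_al_iter (k : ℕ) (x : AAlg) : pr2 ((al m)^[k] x) = pr2 x := by
  induction k with
  | zero => rfl
  | succ k ih => rw [Function.iterate_succ_apply', pr2_al, ih]

lemma pr1_al_iter (k : ℕ) (x : AAlg) : pr1 ((al m)^[k] x) =
    (th m)^[k] (pr1 x - pr2 x • 1) + pr2 x • 1 := by
  induction k with
  | zero =>
    change pr1 x = pr1 x - pr2 x • 1 + pr2 x • 1
    abel
  | succ k ih =>
    rw [Function.iterate_succ_apply', pr1_al, pr2_al_iter, ih, add_sub_cancel_right,
      Function.iterate_succ_apply']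

/-- The error of the systems along the orbit. -/
lemma err_le {L M k q : ℕ} (hM : 0 < M) (hL : k + q ≤ L) (d : Fin (wd m M)) (x : AAlg) :
    ‖phiL m (wd m M) d L M (psiL hm (wd m M) L M ((al m)^[k] x)) - (al m)^[k] x‖ ≤
      2 * ‖P (wd m q) * (pr1 x - pr2 x • 1) * P (wd m q) - (pr1 x - pr2 x • 1)‖ +
        4 * q * ‖pr1 x - pr2 x • 1‖ / M := by
  set T := pr1 x - pr2 x • 1 with hT
  rw [norm_AA, max_le_iff]
  refine ⟨?_, ?_⟩
  · rw [map_sub, pr1_phi_psi, pr1_al_iter, pr2_al_iter, ← hT, Phi_add, Phi_smul, Phi_one hm hM]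
    refine le_trans (le_of_eq ?_) (Phi_est' hm hM hL T)
    congr 1
    rw [smul_sub]
    abel
  · rw [map_sub, pr2_phi_psi, sub_self, norm_zero]
    positivity

lemma isK_pr (x : AAlg) : IsK (pr1 x - pr2 x • 1) := x.2

include hm in
/-- The rank of the systems grows linearly. -/
lemma cpApprox (G : Set AAlg) (hG : G.Finite) {ε : ℝ} (hε : 0 < ε) :
    ∃ a b : ℕ, ∀ n : ℕ, CPApprox (orbitSet (al m) G n) ε ((n + a) * b) := by
  -- choice of `q`
  have h1 : ∀ x ∈ G, ∀ᶠ q in atTop, ‖P (wd m q) * (pr1 x - pr2 x • 1) * P (wd m q) -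
      (pr1 x - pr2 x • 1)‖ < ε / 4 := by
    intro x _
    have h2 := (isK_pr x).tendsto.comp
      (tendsto_atTop_mono (fun L => le_wd m hm L) tendsto_id)
    have h3 := (Metric.tendsto_nhds.1 h2) (ε / 4) (by positivity)
    filter_upwards [h3] with q hq
    rwa [dist_eq_norm] at hq
  obtain ⟨q, hq⟩ := ((Filter.eventually_all_finite hG).2 h1).exists
  -- choice of `M`
  obtain ⟨C, hC⟩ : ∃ C : ℝ, ∀ x ∈ G, ‖pr1 x - pr2 x • (1 : BH)‖ ≤ C := by
    obtain ⟨C, hC⟩ := (hG.image fun x => ‖pr1 x - pr2 x • (1 : BH)‖).bddAbove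
    exact ⟨C, fun x hx => hC ⟨x, hx, rfl⟩⟩
  obtain ⟨M, hM⟩ := exists_nat_gt (max 1 (8 * q * C / ε))
  have hM0 : 0 < M := by
    have := (le_max_left _ _).trans_lt hM
    have h4 : (0 : ℝ) < M := by linarith
    exact_mod_cast h4
  have hM1 : 8 * q * C / ε < M := (le_max_right _ _).trans_lt hM
  have hMR : (0 : ℝ) < M := by exact_mod_cast hM0
  have hwd : 0 < wd m M := lt_of_lt_of_le hM0 (le_wd m hm M)
  refine ⟨q + M + 1, wd m M, fun n => ?_⟩
  have key : CPApprox (orbitSet (al m) G n) ε (FinDim.mk (n + q + M + 1) fun _ => wd m M).rank := by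
    refine cpApprox_of (FinDim.mk (n + q + M + 1) fun _ => wd m M) (psiL hm (wd m M) (n + q) M)
      (phiL m (wd m M) ⟨0, hwd⟩ (n + q) M) (isCP_psiL hm _ _ _) (contr_psiL hm _ _ _)
      (isCP_phiL _ _ _ _) (contr_phiL _ _ hM0) ?_
    rintro _ ⟨k, hk, x, hx, rfl⟩
    refine (err_le hm hM0 (q := q) (by omega) ⟨0, hwd⟩ x).trans ?_
    have h5 := hq x hx
    have h6 : 4 * q * ‖pr1 x - pr2 x • (1 : BH)‖ / M ≤ ε / 2 := by
      rw [div_le_iff₀ hMR]
      have h7 : 8 * q * C < M * ε := by rwa [div_lt_iff₀ hε] at hM1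
      have h8 : 4 * q * ‖pr1 x - pr2 x • (1 : BH)‖ ≤ 4 * q * C := by
        have := hC x hx
        gcongr
      linarith
    linarith
  have hr : (FinDim.mk (n + q + M + 1) fun _ => wd m M).rank = (n + (q + M + 1)) * wd m M := by
    change ∑ _j : Fin (n + q + M + 1), wd m M = _
    rw [Finset.sum_const, Finset.card_univ, Fintype.card_fin, smul_eq_mul]
    ring
  rwa [hr] at key

end

end

end Ent75
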